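import Mathlib
import Pool.Agent.U839.Gb.Nt
import Pool.Agent.U839.Gb.Mean
import Pool.Agent.U839.Sv.Fin

set_option autoImplicit false

/-! # Sums over pairs with a small element -/

open Finset Filter Topology Classical

namespace Pool.Agent.U839.Lp

open Pool.Agent.U839.Sv (Pr mem_Pr W W_pos fT fT_nonneg)
open Pool.Agent.U839.Gb (Ss Ss_nonneg cnt convex_Ioc lf Om Om_dvd Om_ndvd sumF)

/-- the admissible pairings -/
structure Shift (φ : ℕ → ℕ → ℕ) : Prop where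
  sum : ∀ b₀ : ℕ, ∃ K : ℝ, ∃ D : ℕ, 0 < K ∧ ∀ T : ℕ → ℕ, Monotone T → ∀ n n1 n2 : ℕ, n1 ≤ n2 →
    2 * n2 ≤ n → 1 ≤ n →
    |∑ a ∈ Ioc n1 n2, fT T a * fT T (φ n a) - ∑ a ∈ Ioc n1 n2, Ss n (T a)| ≤
      (1 / 2) ^ b₀ * ∑ a ∈ Ioc n1 n2, Ss n (T a) + K * ((T (2 * n) : ℝ) + 2) ^ D
  low : ∀ n a : ℕ, 2 * a ≤ n → n ≤ 2 * φ n a ∧ φ n a ≤ 2 * n
  inj : ∀ n a b : ℕ, 2 * a ≤ n → 2 * b ≤ n → φ n a = φ n b → a = b
  sep : ∀ n m a b y : ℕ, 2 * a ≤ n → 2 * b ≤ m → a ≤ y → b ≤ y → n + y < m → φ n a ≠ φ m b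

theorem shift_sub : Shift (fun n a => n - a) where
  sum := by
    intro b₀
    obtain ⟨K, D, hK, H⟩ := sumF b₀
    refine ⟨K, D, hK, fun T hT n n1 n2 h1 h2 h3 => (H T hT n n1 n2 h1 h2 h3).trans ?_⟩
    have : (T n : ℝ) ≤ T (2 * n) := by exact_mod_cast hT (by omega)
    gcongr
  low := fun n a h => by omega
  inj := fun n a b h1 h2 h3 => by omega
  sep := fun n m a b y h1 h2 h3 h4 h5 h6 => by omega

/-- the fundamental lemma on an interval, for differences -/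
theorem cntD (b₀ : ℕ) : ∃ K : ℝ, ∃ D : ℕ, 0 < K ∧ ∀ n i j n1 n2 : ℕ, i ≤ j → n1 ≤ n2 →
    |W i * W j * (((Ioc n1 n2).filter (fun a => (∀ p, p.Prime → p ≤ i → ¬ p ∣ a) ∧
      ∀ p, p.Prime → p ≤ j → ¬ p ∣ n + a)).card : ℝ) - ((n2 : ℝ) - n1) * Ss n i| ≤
      (1 / 2) ^ b₀ * (((n2 : ℝ) - n1) * Ss n i) + K * ((j : ℝ) + 2) ^ D := by
  obtain ⟨K, D, hK, H⟩ := cnt b₀
  refine ⟨K, D, hK, fun n i j n1 n2 hij h12 => ?_⟩
  obtain ⟨M, hM⟩ : ∃ M, M = j.factorial * (n + n2 + 1) := ⟨_, rfl⟩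
  have hM1 : n + n2 + 1 ≤ M := by
    rw [hM]
    exact Nat.le_mul_of_pos_left _ (Nat.factorial_pos j)
  obtain ⟨m, hm⟩ : ∃ m, m = M - n := ⟨_, rfl⟩
  have hmn : m + n = M := by omega
  have hdvd : ∀ p, p.Prime → p ≤ j → p ∣ M := by
    intro p hp hpj
    rw [hM]
    exact Dvd.dvd.mul_right (Nat.dvd_factorial hp.pos hpj) _
  have h := H m i j n1 n2 hij h12 (by omega) (by omega)
  have h1 : (Ioc n1 n2).filter (fun a => (∀ p, p.Prime → p ≤ i → ¬ p ∣ a) ∧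
      ∀ p, p.Prime → p ≤ j → ¬ p ∣ m - a) = (Ioc n1 n2).filter (fun a => (∀ p, p.Prime → p ≤ i → ¬ p ∣ a) ∧
      ∀ p, p.Prime → p ≤ j → ¬ p ∣ n + a) := by
    apply filter_congr
    intro a ha
    rw [mem_Ioc] at ha
    have h2 : ∀ p, p.Prime → p ≤ j → (p ∣ m - a ↔ p ∣ n + a) := by
      intro p hp hpj
      have h3 : (m - a) + (n + a) = M := by omega
      constructor
      · intro h4
        exact (Nat.dvd_add_right h4).1 (h3 ▸ hdvd p hp hpj)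
      · intro h4
        exact (Nat.dvd_add_left h4).1 (h3 ▸ hdvd p hp hpj)
    constructor
    · rintro ⟨h3, h4⟩
      exact ⟨h3, fun p hp hpj h5 => h4 p hp hpj ((h2 p hp hpj).2 h5)⟩
    · rintro ⟨h3, h4⟩
      exact ⟨h3, fun p hp hpj h5 => h4 p hp hpj ((h2 p hp hpj).1 h5)⟩
  have h2 : Ss m i = Ss n i := by
    unfold Ss
    apply prod_congr rfl
    intro p hp
    rw [mem_Pr] at hp
    have h3 : p ∣ m ↔ p ∣ n := by
      have h4 := hdvd p hp.1 (hp.2.trans hij)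
      constructor
      · intro h5
        exact (Nat.dvd_add_right h5).1 (hmn ▸ h4)
      · intro h5
        exact (Nat.dvd_add_left h5).1 (hmn ▸ h4)
    unfold lf
    by_cases h4 : p ∣ n
    · rw [Om_dvd h4, Om_dvd (h3.2 h4)]
    · rw [Om_ndvd h4, Om_ndvd (fun h5 => h4 (h3.1 h5))]
  rw [h1, h2] at h
  exact h

theorem sumD (b₀ : ℕ) : ∃ K : ℝ, ∃ D : ℕ, 0 < K ∧ ∀ T : ℕ → ℕ, Monotone T → ∀ n n1 n2 : ℕ, n1 ≤ n2 →
    |∑ a ∈ Ioc n1 n2, fT T a * fT T (n + a) - ∑ a ∈ Ioc n1 n2, Ss n (T a)| ≤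
      (1 / 2) ^ b₀ * ∑ a ∈ Ioc n1 n2, Ss n (T a) + K * ((T (n + n2) : ℝ) + 2) ^ D := by
  obtain ⟨K, D, hK, H⟩ := cntD b₀
  refine ⟨K, D + 2, hK, fun T hT n n1 n2 h12 => ?_⟩
  obtain ⟨t, ht⟩ : ∃ t, t = T (n + n2) := ⟨_, rfl⟩
  rw [← ht]
  obtain ⟨I, hI⟩ : ∃ I, I = range (t + 1) ×ˢ range (t + 1) := ⟨_, rfl⟩
  have hmaps : ∀ a ∈ Ioc n1 n2, (fun a => (T a, T (n + a))) a ∈ I := by
    intro a ha
    rw [mem_Ioc] at ha
    rw [hI, mem_product, mem_range, mem_range]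
    simp only
    have h3 : T a ≤ T (n + n2) := hT (by omega)
    have h4 : T (n + a) ≤ T (n + n2) := hT (by omega)
    omega
  have key : ∀ y ∈ I, |∑ a ∈ (Ioc n1 n2).filter (fun a => (fun a => (T a, T (n + a))) a = y),
      fT T a * fT T (n + a) - ∑ a ∈ (Ioc n1 n2).filter (fun a => (fun a => (T a, T (n + a))) a = y), Ss n (T a)| ≤
      (1 / 2) ^ b₀ * ∑ a ∈ (Ioc n1 n2).filter (fun a => (fun a => (T a, T (n + a))) a = y), Ss n (T a) +
        K * ((t : ℝ) + 2) ^ D := by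
    rintro ⟨i, j⟩ hy
    rw [hI, mem_product, mem_range, mem_range] at hy
    simp only at hy
    obtain ⟨A, hA⟩ : ∃ A, A = (Ioc n1 n2).filter (fun a => (fun a => (T a, T (n + a))) a = (i, j)) := ⟨_, rfl⟩
    rw [← hA]
    have hAm : ∀ a, a ∈ A ↔ (n1 < a ∧ a ≤ n2) ∧ T a = i ∧ T (n + a) = j := by
      intro a
      rw [hA, mem_filter, mem_Ioc]
      simp only [Prod.mk.injEq]
    rcases A.eq_empty_or_nonempty with h0 | hne
    · rw [h0]
      simp only [sum_empty, sub_zero, abs_zero, mul_zero, zero_add]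
      positivity
    have hconv : ∀ a ∈ A, ∀ b ∈ A, ∀ c, a ≤ c → c ≤ b → c ∈ A := by
      intro a ha b hb c hac hcb
      rw [hAm] at ha hb ⊢
      have h3 : T a ≤ T c := hT hac
      have h4 : T c ≤ T b := hT hcb
      have h5 : T (n + a) ≤ T (n + c) := hT (by omega)
      have h6 : T (n + c) ≤ T (n + b) := hT (by omega)
      omega
    obtain ⟨m, M, hmM, hMA, hIoc⟩ := convex_Ioc A hconv hne (fun a ha => by
      rw [hAm] at ha
      omega)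
    rw [hAm] at hMA
    have hij : i ≤ j := by
      have h3 : T M ≤ T (n + M) := hT (by omega)
      omega
    have hF : ∑ a ∈ A, fT T a * fT T (n + a) = W i * W j * (((Ioc m M).filter (fun a =>
        (∀ p, p.Prime → p ≤ i → ¬ p ∣ a) ∧ ∀ p, p.Prime → p ≤ j → ¬ p ∣ n + a)).card : ℝ) := by
      have h3 : ∀ a ∈ A, fT T a * fT T (n + a) = W i * W j * (if ((∀ p, p.Prime → p ≤ i → ¬ p ∣ a) ∧
          ∀ p, p.Prime → p ≤ j → ¬ p ∣ n + a) then 1 else 0) := by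
        intro a ha
        rw [hAm] at ha
        unfold fT
        rw [ha.2.1, ha.2.2]
        by_cases h4 : ∀ p, p.Prime → p ≤ i → ¬ p ∣ a
        · by_cases h5 : ∀ p, p.Prime → p ≤ j → ¬ p ∣ n + a
          · rw [if_pos h4, if_pos h5, if_pos ⟨h4, h5⟩, mul_one]
          · have h6 : ¬ ((∀ p, p.Prime → p ≤ i → ¬ p ∣ a) ∧ ∀ p, p.Prime → p ≤ j → ¬ p ∣ n + a) :=
              fun h => h5 h.2
            rw [if_neg h5, if_neg h6, mul_zero, mul_zero]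
        · have h6 : ¬ ((∀ p, p.Prime → p ≤ i → ¬ p ∣ a) ∧ ∀ p, p.Prime → p ≤ j → ¬ p ∣ n + a) :=
              fun h => h4 h.1
          rw [if_neg h4, if_neg h6, zero_mul, mul_zero]
      rw [sum_congr rfl h3, ← mul_sum, hIoc, ← sum_filter, sum_const, nsmul_eq_mul, mul_one]
    have hG : ∑ a ∈ A, Ss n (T a) = ((M : ℝ) - m) * Ss n i := by
      have h3 : ∀ a ∈ A, Ss n (T a) = Ss n i := by
        intro a ha
        rw [hAm] at ha
        rw [ha.2.1]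
      rw [sum_congr rfl h3, sum_const, nsmul_eq_mul, hIoc, Nat.card_Ioc, Nat.cast_sub hmM]
    rw [hF, hG]
    refine (H n i j m M hij hmM).trans ?_
    have h7 : (j : ℝ) ≤ t := by
      have : j ≤ t := by omega
      exact_mod_cast this
    gcongr
  have e1 := sum_fiberwise_of_maps_to hmaps (fun a => fT T a * fT T (n + a))
  have e2 := sum_fiberwise_of_maps_to hmaps (fun a => Ss n (T a))
  rw [← e1, ← e2, ← sum_sub_distrib]
  refine (abs_sum_le_sum_abs _ _).trans ((sum_le_sum key).trans ?_)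
  rw [sum_add_distrib, ← mul_sum, sum_const, nsmul_eq_mul, hI, card_product, card_range]
  have h8 : (((t + 1) * (t + 1) : ℕ) : ℝ) ≤ ((t : ℝ) + 2) ^ 2 := by
    push_cast
    have : (0 : ℝ) ≤ t := Nat.cast_nonneg t
    nlinarith
  have h9 : (((t + 1) * (t + 1) : ℕ) : ℝ) * (K * ((t : ℝ) + 2) ^ D) ≤ K * ((t : ℝ) + 2) ^ (D + 2) := by
    calc (((t + 1) * (t + 1) : ℕ) : ℝ) * (K * ((t : ℝ) + 2) ^ D) ≤ ((t : ℝ) + 2) ^ 2 * (K * ((t : ℝ) + 2) ^ D) := by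
          gcongr
      _ = K * ((t : ℝ) + 2) ^ (D + 2) := by ring
  linarith

theorem shift_add : Shift (fun n a => n + a) where
  sum := by
    intro b₀
    obtain ⟨K, D, hK, H⟩ := sumD b₀
    refine ⟨K, D, hK, fun T hT n n1 n2 h1 h2 h3 => (H T hT n n1 n2 h1).trans ?_⟩
    have : (T (n + n2) : ℝ) ≤ T (2 * n) := by exact_mod_cast hT (by omega)
    gcongr
  low := fun n a h => by omega
  inj := fun n a b h1 h2 h3 => by omega
  sep := fun n m a b y h1 h2 h3 h4 h5 h6 => by omega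

end Pool.Agent.U839.Lp
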