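import Mathlib
import Pool.Agent.U839.Lp.Shift

set_option autoImplicit false

/-! # Growth lemmas -/

open Finset Filter Topology

namespace Pool.Agent.U839.Lp

open Pool.Agent.U839.Gb (cc cc_anti cc_low cc_le Ss Ss_eq Pt mem_Pt hh hh_prod_ge)
open Pool.Agent.U839.Thin (tlog)

/-- the length of the range of the small summand -/
noncomputable def yn (c : ℝ) (n : ℕ) : ℕ := ⌊c * (Real.log n) ^ 2 * Real.log (Real.log n)⌋₊

theorem tlog2 : Tendsto (fun n : ℕ => Real.log (Real.log n)) atTop atTop := Real.tendsto_log_atTop.comp tlog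

theorem log_y (c ε : ℝ) (hc : 0 < c) (hε : 0 < ε) : ∀ᶠ n : ℕ in atTop,
    Real.log (c * (Real.log n) ^ 2 * Real.log (Real.log n)) ≤ (2 + ε) * Real.log (Real.log n) := by
  have h1 := Real.isLittleO_log_id_atTop.bound (show (0 : ℝ) < ε / 2 by positivity)
  filter_upwards [tlog2.eventually h1, tlog2.eventually_ge_atTop (2 * Real.log c / ε),
    tlog2.eventually_ge_atTop 1, tlog.eventually_ge_atTop 1] with n g1 g2 g3 g4
  obtain ⟨L, hL⟩ : ∃ L, L = Real.log n := ⟨_, rfl⟩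
  rw [← hL] at g1 g2 g3 g4 ⊢
  obtain ⟨l, hl⟩ : ∃ l, l = Real.log L := ⟨_, rfl⟩
  rw [← hl] at g1 g2 g3 ⊢
  rw [id, Real.norm_of_nonneg (Real.log_nonneg g3), Real.norm_of_nonneg (by linarith)] at g1
  have hL0 : 0 < L := by linarith
  have hl0 : 0 < l := by linarith
  rw [Real.log_mul (by positivity) hl0.ne', Real.log_mul hc.ne' (by positivity), Real.log_pow, ← hl]
  rw [div_le_iff₀ hε] at g2
  push_cast
  linarith

theorem y_small (c ε : ℝ) (hc : 0 < c) (hε : 0 < ε) : ∀ᶠ n : ℕ in atTop,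
    c * (Real.log n) ^ 2 * Real.log (Real.log n) + 1 ≤ (n : ℝ) ^ ε := by
  have h1 := (isLittleO_log_rpow_rpow_atTop 4 hε).bound one_pos
  filter_upwards [tendsto_natCast_atTop_atTop.eventually h1, tlog.eventually_ge_atTop (c + 1),
    tlog2.eventually_ge_atTop 0] with n g1 g2 g3
  obtain ⟨L, hL⟩ : ∃ L, L = Real.log n := ⟨_, rfl⟩
  rw [← hL] at g1 g2 g3 ⊢
  have hL0 : 0 ≤ L := by linarith
  rw [one_mul, Real.norm_of_nonneg (by positivity), Real.norm_of_nonneg (by positivity)] at g1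
  have e4 : L ^ (4 : ℝ) = L ^ 4 := by
    rw [← Real.rpow_natCast]
    norm_num
  rw [e4] at g1
  refine le_trans ?_ g1
  have hl : Real.log L ≤ L := by
    have := Real.log_le_sub_one_of_pos (show 0 < L by linarith)
    linarith
  have h2 : c * L ^ 2 * Real.log L ≤ c * L ^ 2 * L := by gcongr
  have h3 : c * L ^ 2 * L + 1 ≤ (c + 1) * L ^ 3 := by
    have : 1 ≤ L ^ 3 := one_le_pow₀ (by linarith)
    nlinarith
  have h4 : (c + 1) * L ^ 3 ≤ L * L ^ 3 := by
    apply mul_le_mul_of_nonneg_right g2 (by positivity)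
  nlinarith

/-- the level at `4 x` -/
theorem TL (T : ℕ → ℕ) (hTl : ∀ ε : ℝ, 0 < ε → ∀ᶠ n : ℕ in atTop, (T n : ℝ) ≤ (Real.log n) ^ ε)
    (ε : ℝ) (hε : 0 < ε) : ∀ᶠ x : ℕ in atTop, (T (4 * x) : ℝ) + 2 ≤ (Real.log x) ^ ε := by
  have hmul : Tendsto (fun n : ℕ => 4 * n) atTop atTop := tendsto_id.const_mul_atTop' (by norm_num)
  have hpow : Tendsto (fun n : ℕ => (Real.log n) ^ (ε / 2)) atTop atTop :=
    (tendsto_rpow_atTop (by positivity)).comp tlog
  filter_upwards [hmul.eventually (hTl (ε / 4) (by positivity)), hpow.eventually_ge_atTop 2,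
    tlog.eventually_ge_atTop 2, eventually_ge_atTop 1] with x g1 g2 g3 g4
  obtain ⟨L, hL⟩ : ∃ L, L = Real.log x := ⟨_, rfl⟩
  rw [← hL] at g2 g3 ⊢
  have hx0 : (0 : ℝ) < x := by exact_mod_cast g4
  have h1 : Real.log ((4 * x : ℕ) : ℝ) ≤ L ^ 2 := by
    push_cast
    rw [Real.log_mul (by norm_num) hx0.ne', ← hL]
    have h8 : Real.log 4 ≤ 2 := by
      have : (4 : ℝ) = 2 ^ 2 := by norm_num
      rw [this, Real.log_pow]
      have := Real.log_two_lt_d9
      push_cast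
      linarith
    nlinarith
  have h2 : (Real.log ((4 * x : ℕ) : ℝ)) ^ (ε / 4) ≤ L ^ (ε / 2) := by
    calc (Real.log ((4 * x : ℕ) : ℝ)) ^ (ε / 4) ≤ (L ^ 2) ^ (ε / 4) :=
          Real.rpow_le_rpow (Real.log_natCast_nonneg _) h1 (by positivity)
      _ = L ^ (ε / 2) := by
          rw [← Real.rpow_natCast, ← Real.rpow_mul (by linarith)]
          congr 1
          push_cast
          ring
  have h3 : L ^ ε = L ^ (ε / 2) * L ^ (ε / 2) := by
    rw [← Real.rpow_add (by linarith)]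
    congr 1
    ring
  rw [h3]
  nlinarith

theorem errK (T : ℕ → ℕ) (hT : Monotone T)
    (hTl : ∀ ε : ℝ, 0 < ε → ∀ᶠ n : ℕ in atTop, (T n : ℝ) ≤ (Real.log n) ^ ε)
    (K : ℝ) (hK : 0 < K) (D : ℕ) : ∀ᶠ x : ℕ in atTop, ∀ n, n ≤ 4 * x →
      K * ((T n : ℝ) + 2) ^ D ≤ K * Real.log x := by
  filter_upwards [TL T hTl (1 / ((D : ℝ) + 1)) (by positivity), tlog.eventually_ge_atTop 1] with x g1 g2 n hn
  apply mul_le_mul_of_nonneg_left _ hK.le
  have h1 : (T n : ℝ) ≤ T (4 * x) := by exact_mod_cast hT hn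
  calc ((T n : ℝ) + 2) ^ D ≤ ((Real.log x) ^ (1 / ((D : ℝ) + 1))) ^ D := by
        apply pow_le_pow_left₀ (by positivity)
        linarith
    _ = (Real.log x) ^ (1 / ((D : ℝ) + 1) * D) := by
        rw [← Real.rpow_natCast, ← Real.rpow_mul (by linarith)]
    _ ≤ (Real.log x) ^ (1 : ℝ) := by
        apply Real.rpow_le_rpow_of_exponent_le g2
        rw [div_mul_eq_mul_div, one_mul, div_le_one (by positivity)]
        linarith
    _ = Real.log x := Real.rpow_one _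

/-- the limit of the truncated twin prime products -/
noncomputable def kap (T : ℕ → ℕ) : ℝ := ⨅ n, cc (T n)

theorem kap_bdd (T : ℕ → ℕ) : BddBelow (Set.range (fun n => cc (T n))) := ⟨1 / 2, by
  rintro _ ⟨t, rfl⟩
  exact cc_low _⟩

theorem kap_le (T : ℕ → ℕ) (n : ℕ) : kap T ≤ cc (T n) := ciInf_le (kap_bdd T) n

theorem kap_low (T : ℕ → ℕ) : 1 / 2 ≤ kap T := le_ciInf (fun n => cc_low (T n))

theorem kap_lim (T : ℕ → ℕ) (hT : Monotone T) (ε : ℝ) (hε : 0 < ε) :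
    ∃ n₀, ∀ n ≥ n₀, cc (T n) ≤ kap T + ε := by
  obtain ⟨m, hm⟩ := exists_lt_of_ciInf_lt (show (⨅ n, cc (T n)) < kap T + ε by
    change kap T < kap T + ε
    linarith)
  exact ⟨m, fun n hn => (cc_anti (hT hn)).trans hm.le⟩

theorem Ss_ge {n t : ℕ} (hn : 2 ∣ n) (ht : 2 ≤ t) : 2 * cc t ≤ Ss n t := by
  rw [Ss_eq hn ht]
  have h1 : 1 ≤ ∏ p ∈ (Pt t).filter (fun p => p ∣ n), hh p := by
    apply hh_prod_ge
    intro p hp
    rw [mem_filter, mem_Pt] at hp
    exact hp.1.2.1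
  have h2 := cc_low t
  nlinarith

theorem Ss_free {n t : ℕ} (hn : 2 ∣ n) (ht : 2 ≤ t) (h : ∀ p, p.Prime → 3 ≤ p → p ≤ t → ¬ p ∣ n) :
    Ss n t = 2 * cc t := by
  rw [Ss_eq hn ht]
  have h1 : (Pt t).filter (fun p => p ∣ n) = ∅ := by
    apply filter_eq_empty_iff.2
    intro p hp
    rw [mem_Pt] at hp
    exact h p hp.1 hp.2.1 hp.2.2
  rw [h1, prod_empty, mul_one]

end Pool.Agent.U839.Lp
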