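import Mathlib
import Pool.Agent.U839.Lp.Grow

set_option autoImplicit false

/-! # Lower bound for the expected number of pairs with a small element -/

open MeasureTheory ProbabilityTheory Finset Filter Topology

namespace Pool.Agent.U839.Lp

open Pool.Agent.U839.Sv (fT fT_nonneg Sieved law' sub_pow)
open Pool.Agent.U839.Gb (cc Ss Ss_nonneg exists_b)
open Pool.Agent.U839.Thin (tlog)

variable {Ω : Type*} [MeasurableSpace Ω] {μ : Measure Ω} [IsProbabilityMeasure μ]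

theorem sum_low {φ : ℕ → ℕ → ℕ} (hφ : Shift φ) (T : ℕ → ℕ) (hT : Monotone T) (hT2 : ∃ n, 2 ≤ T n)
    (hTl : ∀ ε : ℝ, 0 < ε → ∀ᶠ n : ℕ in atTop, (T n : ℝ) ≤ (Real.log n) ^ ε)
    {E : ℕ → Set Ω} (hE : Sieved μ E T) (c : ℝ) (hc : 1 < kap T * c) :
    ∃ lam : ℝ, 1 < lam ∧ ∀ᶠ n : ℕ in atTop, 2 ∣ n →
      lam * Real.log n ≤ ∑ q ∈ Ioc 0 (yn c n), μ.real (E q) * μ.real (E (φ n q)) := by
  have hTs := sub_pow T 1 (hTl 1 one_pos)
  obtain ⟨κ, hκ⟩ : ∃ κ, κ = kap T := ⟨_, rfl⟩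
  have hκ2 : 1 / 2 ≤ κ := by rw [hκ]; exact kap_low T
  rw [← hκ] at hc
  have hc0 : 0 < c := by
    by_contra hcon
    push Not at hcon
    nlinarith
  obtain ⟨s, hs⟩ : ∃ s, s = κ * c := ⟨_, rfl⟩
  rw [← hs] at hc
  obtain ⟨δ, hδ⟩ : ∃ δ, δ = min (1 / 10) ((s - 1) / (12 * s)) := ⟨_, rfl⟩
  have hδ0 : 0 < δ := by
    rw [hδ]
    apply lt_min (by norm_num)
    apply div_pos <;> linarith
  have hδ1 : δ ≤ 1 / 10 := by rw [hδ]; exact min_le_left _ _
  have hδ2 : δ * (12 * s) ≤ s - 1 := by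
    have : δ ≤ (s - 1) / (12 * s) := by rw [hδ]; exact min_le_right _ _
    rwa [le_div_iff₀ (by linarith)] at this
  refine ⟨(1 + s) / 2, by linarith, ?_⟩
  obtain ⟨b₀, hb₀⟩ := exists_b δ hδ0
  obtain ⟨K, D, hK, H⟩ := hφ.sum b₀
  obtain ⟨n₂, hn₂⟩ := hT2
  obtain ⟨n₃, hn₃⟩ := eventually_atTop.1 (law' hE hTs)
  obtain ⟨n₁, hn₁⟩ : ∃ n₁, n₁ = n₂ + n₃ + 2 := ⟨_, rfl⟩
  filter_upwards [errK T hT hTl K hK D, y_small c 1 hc0 one_pos, y_small (2 * c) 1 (by linarith) one_pos,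
    log_y c δ hc0 hδ0,
    tlog.eventually_ge_atTop (K / (δ * s) + 1 / δ + 1), tlog2.eventually_ge_atTop (((n₁ : ℝ) + 2) / (δ * c) + 1),
    eventually_ge_atTop (2 * n₁ + 2)] with n g1 g2 g2' g3 g4 g5 g6 hn2
  obtain ⟨L, hL⟩ : ∃ L, L = Real.log n := ⟨_, rfl⟩
  obtain ⟨Y, hY⟩ : ∃ Y, Y = yn c n := ⟨_, rfl⟩
  have hn0 : (0 : ℝ) < n := by exact_mod_cast (by omega : 0 < n)
  rw [Real.rpow_one] at g2 g2'
  have hcL0 : 0 < K / (δ * s) := div_pos hK (by positivity)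
  have hcL1 : 0 < 1 / δ := by positivity
  rw [← hL] at g1 g2 g2' g3 g4 g5 ⊢
  obtain ⟨l, hl⟩ : ∃ l, l = Real.log L := ⟨_, rfl⟩
  rw [← hl] at g2 g2' g3 g5
  have hL1 : 1 ≤ L := by linarith
  have hn10 : (0 : ℝ) ≤ n₁ := Nat.cast_nonneg _
  have hl1 : 1 ≤ l := by
    have : 0 ≤ ((n₁ : ℝ) + 2) / (δ * c) := by positivity
    linarith
  have hL0 : 0 < L := by linarith
  have hl0 : 0 < l := by linarith
  obtain ⟨z, hz⟩ : ∃ z, z = c * L ^ 2 * l := ⟨_, rfl⟩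
  rw [← hz] at g2 g3
  have hz0 : 0 < z := by rw [hz]; positivity
  have hYz : (Y : ℝ) ≤ z := by
    rw [hY, hz, hl, hL]
    exact Nat.floor_le (by rw [← hL, ← hl]; positivity)
  have hYz' : z - 1 ≤ Y := by
    rw [hY, hz, hl, hL]
    exact (Nat.sub_one_lt_floor _).le
  rw [← hY]
  have h2Y : 2 * Y ≤ n := by
    have : (2 : ℝ) * Y ≤ n := by
      have : 2 * z ≤ n := by
        rw [hz]
        linarith
      linarith
    exact_mod_cast this
  have hδz : (n₁ : ℝ) + 1 ≤ δ * z := by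
    have h1 : ((n₁ : ℝ) + 2) / (δ * c) ≤ l := by linarith
    rw [div_le_iff₀ (by positivity)] at h1
    have h2 : l * (δ * c) * 1 ≤ l * (δ * c) * L ^ 2 := by
      apply mul_le_mul_of_nonneg_left _ (by positivity)
      nlinarith
    rw [hz]
    nlinarith
  have hn1Y : n₁ ≤ Y := by
    have : (n₁ : ℝ) ≤ Y := by nlinarith
    exact_mod_cast this
  have hKL : K * L ≤ δ * κ * z := by
    have h1 : K / (δ * s) ≤ L := by linarith
    rw [div_le_iff₀ (by positivity)] at h1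
    have h2 : K * L ≤ L * (δ * s) * L := by gcongr
    have h3 : L * (δ * s) * L * 1 ≤ L * (δ * s) * L * l := by gcongr
    have h4 : δ * κ * z = L * (δ * s) * L * l := by
      rw [hz, hs]
      ring
    rw [h4]
    linarith
  -- the sum
  have hY1 : (1 : ℝ) < Y := by
    have : (n₁ : ℝ) ≤ Y := by exact_mod_cast hn1Y
    have : (2 : ℝ) ≤ n₁ := by exact_mod_cast (by omega : 2 ≤ n₁)
    linarith
  have hlY0 : 0 < Real.log Y := Real.log_pos hY1
  have hlY : Real.log Y ≤ (2 + δ) * l := by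
    refine le_trans (Real.log_le_log (by linarith) hYz) g3
  have hl2n0 : 0 < Real.log (2 * n) := by
    apply Real.log_pos
    have : (2 : ℝ) ≤ n := by exact_mod_cast (by omega : 2 ≤ n)
    linarith
  have hl2n : Real.log (2 * n) ≤ (1 + δ) * L := by
    rw [Real.log_mul (by norm_num) hn0.ne', ← hL]
    have := Real.log_two_lt_d9
    have h1 : 1 / δ ≤ L := by linarith
    rw [div_le_iff₀ hδ0] at h1
    linarith
  obtain ⟨A, hA⟩ : ∃ A, A = Real.log Y * Real.log (2 * n) := ⟨_, rfl⟩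
  have hA0 : 0 < A := by rw [hA]; positivity
  have hterm : ∀ q ∈ Ioc n₁ Y, fT T q * fT T (φ n q) / A ≤ μ.real (E q) * μ.real (E (φ n q)) := by
    intro q hq
    rw [mem_Ioc] at hq
    obtain ⟨e1, e2⟩ := hφ.low n q (by omega)
    rw [hn₃ q (by omega), hn₃ (φ n q) (by omega)]
    have hq1 : (1 : ℝ) < q := by exact_mod_cast (by omega : 1 < q)
    have hφ1 : (1 : ℝ) < φ n q := by exact_mod_cast (by omega : 1 < φ n q)
    have k1 : 0 < Real.log q := Real.log_pos hq1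
    have k2 : 0 < Real.log (φ n q) := Real.log_pos hφ1
    have k3 : Real.log q ≤ Real.log Y := Real.log_le_log (by linarith) (by exact_mod_cast hq.2)
    have k4 : Real.log (φ n q) ≤ Real.log (2 * n) := Real.log_le_log (by linarith) (by exact_mod_cast e2)
    have k5 : fT T q * fT T (φ n q) / A = (fT T q / Real.log Y) * (fT T (φ n q) / Real.log (2 * n)) := by
      rw [hA]
      field_simp
    rw [k5]
    apply mul_le_mul
    · exact div_le_div_of_nonneg_left (fT_nonneg T q) k1 k3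
    · exact div_le_div_of_nonneg_left (fT_nonneg T _) k2 k4
    · exact div_nonneg (fT_nonneg T _) hl2n0.le
    · exact div_nonneg (fT_nonneg T _) k1.le
  have hsum1 : (∑ q ∈ Ioc n₁ Y, fT T q * fT T (φ n q)) / A ≤
      ∑ q ∈ Ioc 0 Y, μ.real (E q) * μ.real (E (φ n q)) := by
    rw [sum_div]
    refine (sum_le_sum hterm).trans ?_
    apply sum_le_sum_of_subset_of_nonneg
    · intro q hq
      rw [mem_Ioc] at hq ⊢
      omega
    · intro q _ _
      exact mul_nonneg measureReal_nonneg measureReal_nonneg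
  refine le_trans ?_ hsum1
  have h8 := (abs_le.1 (H T hT n n₁ Y hn1Y h2Y (by omega))).1
  have h9 := g1 (2 * n) (by omega)
  have h10 : 2 * κ * ((Y : ℝ) - n₁) ≤ ∑ q ∈ Ioc n₁ Y, Ss n (T q) := by
    have h11 : ∑ q ∈ Ioc n₁ Y, 2 * κ ≤ ∑ q ∈ Ioc n₁ Y, Ss n (T q) := by
      apply sum_le_sum
      intro q hq
      rw [mem_Ioc] at hq
      have h12 : 2 ≤ T q := hn₂.trans (hT (by omega))
      have h13 := Ss_ge hn2 h12
      have h14 := kap_le T q
      rw [← hκ] at h14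
      linarith
    rw [sum_const, nsmul_eq_mul, Nat.card_Ioc, Nat.cast_sub hn1Y] at h11
    linarith
  have h15 : 0 ≤ ∑ q ∈ Ioc n₁ Y, Ss n (T q) := sum_nonneg (fun q _ => Ss_nonneg n (T q))
  have h16 : (1 / 2 : ℝ) ^ b₀ * ∑ q ∈ Ioc n₁ Y, Ss n (T q) ≤ δ * ∑ q ∈ Ioc n₁ Y, Ss n (T q) := by gcongr
  have h17 : (1 - δ) * (2 * κ * ((Y : ℝ) - n₁)) ≤ (1 - δ) * ∑ q ∈ Ioc n₁ Y, Ss n (T q) := by
    apply mul_le_mul_of_nonneg_left h10
    linarith
  have h18 : (1 - δ) * z ≤ (Y : ℝ) - n₁ := by linarith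
  have h19 : (1 - δ) * (2 * κ * ((1 - δ) * z)) ≤ (1 - δ) * (2 * κ * ((Y : ℝ) - n₁)) := by
    apply mul_le_mul_of_nonneg_left _ (by linarith)
    apply mul_le_mul_of_nonneg_left h18 (by linarith)
  have h20 : 2 * κ * z * (1 - 3 * δ) ≤ ∑ q ∈ Ioc n₁ Y, fT T q * fT T (φ n q) := by
    have h21 : (1 - δ) * (2 * κ * ((1 - δ) * z)) = 2 * κ * z * (1 - 2 * δ) + 2 * κ * z * δ ^ 2 := by ring
    have h22 : 0 ≤ 2 * κ * z * δ ^ 2 := by positivity
    have h23 : 0 ≤ κ * z * δ := by positivity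
    nlinarith
  rw [le_div_iff₀ hA0]
  refine le_trans ?_ h20
  have h24 : A ≤ (2 + δ) * l * ((1 + δ) * L) := by
    rw [hA]
    apply mul_le_mul hlY hl2n hl2n0.le (by positivity)
  have h25 : (1 + s) / 2 * L * A ≤ (1 + s) / 2 * L * ((2 + δ) * l * ((1 + δ) * L)) := by
    apply mul_le_mul_of_nonneg_left h24 (by positivity)
  refine h25.trans ?_
  have h26 : 2 * κ * z * (1 - 3 * δ) = (L ^ 2 * l) * (2 * s * (1 - 3 * δ)) := by
    rw [hz, hs]
    ring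
  have h27 : (1 + s) / 2 * L * ((2 + δ) * l * ((1 + δ) * L)) = (L ^ 2 * l) * ((1 + s) / 2 * ((2 + δ) * (1 + δ))) := by
    ring
  rw [h26, h27]
  apply mul_le_mul_of_nonneg_left _ (by positivity)
  have h28 : (2 + δ) * (1 + δ) ≤ 2 * (1 + 2 * δ) := by nlinarith
  have h29 : (1 + s) / 2 * ((2 + δ) * (1 + δ)) ≤ (1 + s) / 2 * (2 * (1 + 2 * δ)) := by gcongr
  nlinarith

end Pool.Agent.U839.Lp
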