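import Mathlib
import Pool.Agent.U839.Thin.Prob
import Pool.Agent.U839.Gb.Chern
import Pool.Agent.U839.Sv.Prob

set_option autoImplicit false

/-! # Random pairs with one small element -/

open MeasureTheory ProbabilityTheory Filter Finset Topology

namespace Pool.Agent.U839.Lp

open Pool.Agent.U839.Thin (compl_indep one_sub_ge tlog prod_compl none_complete)

variable {Ω : Type*} [MeasurableSpace Ω] {μ : Measure Ω} [IsProbabilityMeasure μ]

/-- Borel-Cantelli -/
theorem bc (bad : ℕ → Set Ω) (C lam : ℝ) (hlam : 1 < lam)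
    (hb : ∀ᶠ n : ℕ in atTop, μ.real (bad n) ≤ C * (1 / (n : ℝ) ^ lam)) :
    ∀ᵐ ω ∂μ, ∀ᶠ n : ℕ in atTop, ω ∉ bad n := by
  obtain ⟨n₀, hn₀⟩ := eventually_atTop.1 hb
  obtain ⟨bad', hbad'⟩ : ∃ bad' : ℕ → Set Ω, bad' = fun n => if n₀ ≤ n then bad n else ∅ := ⟨_, rfl⟩
  have hsum : Summable (fun n : ℕ => C * (1 / (n : ℝ) ^ lam)) :=
    (Real.summable_one_div_nat_rpow.2 hlam).mul_left C
  have htot : ∑' n, μ (bad' n) ≠ ⊤ := by
    have h5 : ∀ n, μ (bad' n) ≤ ENNReal.ofReal (C * (1 / (n : ℝ) ^ lam)) := by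
      intro n
      rw [hbad']
      simp only
      split_ifs with hn
      · rw [← ENNReal.ofReal_toReal (measure_ne_top μ (bad n))]
        exact ENNReal.ofReal_le_ofReal (hn₀ n hn)
      · simp
    exact ne_top_of_le_ne_top hsum.tsum_ofReal_ne_top (ENNReal.tsum_le_tsum h5)
  filter_upwards [ae_eventually_notMem htot] with ω hω
  filter_upwards [hω, eventually_ge_atTop n₀] with n hn hnn
  rw [hbad'] at hn
  simp only [if_pos hnn] at hn
  exact hn

/-- some of the events replaced by their complements -/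
theorem flip_indep {A : ℕ → Set Ω} (S : Finset ℕ) (hA : iIndepSet A μ) :
    iIndepSet (fun p => if p ∈ S then A p else (A p)ᶜ) μ := by
  rw [iIndepSet_iff_iIndep] at *
  have h : (fun i => MeasurableSpace.generateFrom {(if i ∈ S then A i else (A i)ᶜ)}) =
      fun i => MeasurableSpace.generateFrom {A i} := by
    funext i
    split_ifs with hi
    · rfl
    apply le_antisymm
    · apply MeasurableSpace.generateFrom_le
      intro t ht
      rw [Set.mem_singleton_iff.1 ht]
      exact (MeasurableSpace.measurableSet_generateFrom (Set.mem_singleton _)).compl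
    · apply MeasurableSpace.generateFrom_le
      intro t ht
      rw [Set.mem_singleton_iff.1 ht]
      have : MeasurableSet[MeasurableSpace.generateFrom {(A i)ᶜ}] ((A i)ᶜ)ᶜ :=
        (MeasurableSpace.measurableSet_generateFrom (Set.mem_singleton _)).compl
      rwa [compl_compl] at this
  rw [h]
  exact hA

theorem split_prod (A S : Finset ℕ) (hS : S ⊆ A) (a b : ℕ → ℝ) :
    ∏ q ∈ A, (if q ∈ S then a q else b q) = (∏ q ∈ S, a q) * ∏ q ∈ A \ S, b q := by
  rw [← Finset.prod_sdiff hS, mul_comm]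
  congr 1
  · exact prod_congr rfl (fun q hq => if_pos hq)
  · exact prod_congr rfl (fun q hq => if_neg (mem_sdiff.1 hq).2)

/-- for a fixed small part -/
theorem cond_bound {E : ℕ → Set Ω} (hm : ∀ n, MeasurableSet (E n)) (hE : iIndepSet E μ) (A S H : Finset ℕ)
    (T : ℕ → Finset ℕ) (h0 : 0 ∉ H) (hA : ∀ i ∈ H, Disjoint A (T i))
    (hT : ∀ i ∈ H, ∀ j ∈ H, i ≠ j → Disjoint (T i) (T j)) (hS : S ⊆ A) :
    μ.real ((⋂ q ∈ A, (if q ∈ S then E q else (E q)ᶜ)) ∩ ⋂ i ∈ H, (⋂ m ∈ T i, (E m)ᶜ)ᶜ) ≤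
      ((∏ q ∈ S, μ.real (E q)) * ∏ q ∈ A \ S, (1 - μ.real (E q))) *
        Real.exp (-∑ i ∈ H, ∏ m ∈ T i, (1 - μ.real (E m))) := by
  classical
  obtain ⟨F, hF⟩ : ∃ F : ℕ → Set Ω, F = fun p => if p ∈ S then E p else (E p)ᶜ := ⟨_, rfl⟩
  obtain ⟨U, hU⟩ : ∃ U : ℕ → Finset ℕ, U = fun i => if i = 0 then A else T i := ⟨_, rfl⟩
  have hFi : iIndepSet F μ := by rw [hF]; exact flip_indep S hE
  have hFm : ∀ n, MeasurableSet (F n) := by
    intro n
    rw [hF]
    simp only
    split_ifs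
    · exact hm n
    · exact (hm n).compl
  have hne : ∀ i ∈ H, i ≠ 0 := by
    rintro i hi rfl
    exact h0 hi
  have hUi : ∀ i ∈ H, U i = T i := by
    intro i hi
    rw [hU]
    simp only
    rw [if_neg (hne i hi)]
  have hU0 : U 0 = A := by rw [hU]; simp
  have hY : ⋂ i ∈ H, (⋂ m ∈ T i, (E m)ᶜ)ᶜ = ⋂ i ∈ H, (⋂ m ∈ U i, F m)ᶜ := by
    apply Set.iInter_congr
    intro i
    apply Set.iInter_congr
    intro hi
    rw [hUi i hi]
    congr 1
    apply Set.iInter_congr
    intro m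
    apply Set.iInter_congr
    intro hmm
    rw [hF]
    simp only
    rw [if_neg]
    intro hmS
    exact (Finset.disjoint_left.1 (hA i hi)) (hS hmS) hmm
  have hX : ⋂ q ∈ A, (if q ∈ S then E q else (E q)ᶜ) = ⋂ q ∈ A, F q := by rw [hF]
  rw [hX, hY]
  obtain ⟨X, hXd⟩ : ∃ X, X = ⋂ q ∈ A, F q := ⟨_, rfl⟩
  obtain ⟨Y, hYd⟩ : ∃ Y, Y = ⋂ i ∈ H, (⋂ m ∈ U i, F m)ᶜ := ⟨_, rfl⟩
  have hXm : MeasurableSet X := by rw [hXd]; exact Finset.measurableSet_biInter _ (fun q _ => hFm q)
  have hdisj : ∀ i ∈ H, ∀ j ∈ H, i ≠ j → Disjoint (U i) (U j) := by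
    intro i hi j hj hij
    rw [hUi i hi, hUi j hj]
    exact hT i hi j hj hij
  have h2 := prod_compl hFm hFi H U hdisj
  have h1 := prod_compl hFm hFi (insert 0 H) U (by
    intro i hi j hj hij
    rw [mem_insert] at hi hj
    rcases hi with rfl | hi
    · rcases hj with rfl | hj
      · exact absurd rfl hij
      · rw [hU0, hUi j hj]
        exact hA j hj
    · rcases hj with rfl | hj
      · rw [hU0, hUi i hi]
        exact (hA i hi).symm
      · exact hdisj i hi j hj hij)
  rw [prod_insert h0, Finset.set_biInter_insert, hU0, ← hXd, ← hYd] at h1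
  rw [← hYd] at h2
  rw [← hXd, ← hYd]
  have h3 : μ.real (Y ∩ X) + μ.real (Y \ X) = μ.real Y := measureReal_inter_add_diff hXm
  have h4 : Y \ X = Xᶜ ∩ Y := by
    ext ω
    simp only [Set.mem_diff, Set.mem_inter_iff, Set.mem_compl_iff]
    tauto
  rw [h4, h1, h2, Set.inter_comm] at h3
  have hXv : ∏ p ∈ A, μ.real (F p) = (∏ q ∈ S, μ.real (E q)) * ∏ q ∈ A \ S, (1 - μ.real (E q)) := by
    rw [← split_prod A S hS]
    apply prod_congr rfl
    intro q _
    rw [hF]
    simp only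
    split_ifs
    · rfl
    · exact probReal_compl_eq_one_sub (hm q)
  have hYv : ∏ i ∈ H, (1 - ∏ p ∈ U i, μ.real (F p)) ≤ Real.exp (-∑ i ∈ H, ∏ m ∈ T i, (1 - μ.real (E m))) := by
    rw [← Finset.sum_neg_distrib, Real.exp_sum]
    apply Finset.prod_le_prod
    · intro i _
      have : ∏ p ∈ U i, μ.real (F p) ≤ 1 :=
        Finset.prod_le_one (fun p _ => measureReal_nonneg) (fun p _ => measureReal_le_one)
      linarith
    · intro i hi
      have h5 : ∏ p ∈ U i, μ.real (F p) = ∏ m ∈ T i, (1 - μ.real (E m)) := by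
        rw [hUi i hi]
        apply prod_congr rfl
        intro m hmm
        rw [hF]
        simp only
        rw [if_neg]
        · exact probReal_compl_eq_one_sub (hm m)
        · intro hmS
          exact (Finset.disjoint_left.1 (hA i hi)) (hS hmS) hmm
      rw [h5]
      have := Real.add_one_le_exp (-∏ m ∈ T i, (1 - μ.real (E m)))
      linarith
  have h6 : μ.real (X ∩ Y) = (∏ p ∈ A, μ.real (F p)) * ∏ i ∈ H, (1 - ∏ p ∈ U i, μ.real (F p)) := by
    linarith
  rw [h6, hXv]
  apply mul_le_mul_of_nonneg_left hYv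
  apply mul_nonneg
  · exact prod_nonneg (fun _ _ => measureReal_nonneg)
  · apply prod_nonneg
    intro q _
    have : μ.real (E q) ≤ 1 := measureReal_le_one
    linarith

/-- the small part may be arbitrary with bounded sums -/
theorem bad_bound {E : ℕ → Set Ω} (hm : ∀ n, MeasurableSet (E n)) (hE : iIndepSet E μ) (A H : Finset ℕ)
    (φ : ℕ → ℕ → ℕ) (h0 : 0 ∉ H) (hA : ∀ i ∈ H, ∀ q ∈ A, φ i q ∉ A)
    (hT : ∀ i ∈ H, ∀ j ∈ H, i ≠ j → ∀ q ∈ A, ∀ q' ∈ A, φ i q ≠ φ j q')
    (hinj : ∀ i ∈ H, ∀ q ∈ A, ∀ q' ∈ A, φ i q = φ i q' → q = q') (B Z : ℝ)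
    (hZ : ∀ S ⊆ A, (∀ i ∈ H, ∑ q ∈ S, μ.real (E (φ i q)) ≤ B) →
      Z ≤ ∑ i ∈ H, ∏ q ∈ S, (1 - μ.real (E (φ i q)))) :
    μ.real {ω | (∀ i ∈ H, ∑ q ∈ A, (E q).indicator (fun _ => μ.real (E (φ i q))) ω ≤ B) ∧
      ∀ i ∈ H, ∃ q ∈ A, ω ∈ E q ∧ ω ∈ E (φ i q)} ≤ Real.exp (-Z) := by
  classical
  obtain ⟨C, hC⟩ : ∃ C : Finset ℕ → Set Ω, C = fun S => (⋂ q ∈ A, (if q ∈ S then E q else (E q)ᶜ)) ∩
    ⋂ i ∈ H, (⋂ m ∈ S.image (φ i), (E m)ᶜ)ᶜ := ⟨_, rfl⟩
  obtain ⟨w, hw⟩ : ∃ w : Finset ℕ → ℝ, w = fun S => (∏ q ∈ S, μ.real (E q)) *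
    ∏ q ∈ A \ S, (1 - μ.real (E q)) := ⟨_, rfl⟩
  have hw0 : ∀ S, 0 ≤ w S := by
    intro S
    rw [hw]
    apply mul_nonneg
    · exact prod_nonneg (fun _ _ => measureReal_nonneg)
    · apply prod_nonneg
      intro q _
      have : μ.real (E q) ≤ 1 := measureReal_le_one
      linarith
  have hw1 : ∑ S ∈ A.powerset, w S = 1 := by
    have := Finset.prod_add (fun q => μ.real (E q)) (fun q => 1 - μ.real (E q)) A
    rw [hw]
    rw [← this]
    simp
  obtain ⟨G, hG⟩ : ∃ G, G = A.powerset.filter (fun S => ∀ i ∈ H, ∑ q ∈ S, μ.real (E (φ i q)) ≤ B) := ⟨_, rfl⟩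
  have hsub : {ω | (∀ i ∈ H, ∑ q ∈ A, (E q).indicator (fun _ => μ.real (E (φ i q))) ω ≤ B) ∧
      ∀ i ∈ H, ∃ q ∈ A, ω ∈ E q ∧ ω ∈ E (φ i q)} ⊆ ⋃ S ∈ G, C S := by
    rintro ω ⟨h1, h2⟩
    rw [Set.mem_iUnion₂]
    refine ⟨A.filter (fun q => ω ∈ E q), ?_, ?_⟩
    · rw [hG, mem_filter, mem_powerset]
      refine ⟨filter_subset _ _, fun i hi => ?_⟩
      refine le_trans (le_of_eq ?_) (h1 i hi)
      rw [sum_filter]
      apply sum_congr rfl
      intro q _
      by_cases hq : ω ∈ E q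
      · rw [if_pos hq, Set.indicator_of_mem hq]
      · rw [if_neg hq, Set.indicator_of_notMem hq]
    · rw [hC]
      simp only
      refine ⟨?_, ?_⟩
      · rw [Set.mem_iInter₂]
        intro q hq
        split_ifs with h3
        · exact (mem_filter.1 h3).2
        · intro h4
          exact h3 (mem_filter.2 ⟨hq, h4⟩)
      · rw [Set.mem_iInter₂]
        intro i hi
        rw [Set.mem_compl_iff, Set.mem_iInter₂]
        intro h3
        obtain ⟨q, hq, h4, h5⟩ := h2 i hi
        exact h3 (φ i q) (mem_image_of_mem _ (mem_filter.2 ⟨hq, h4⟩)) h5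
  refine (measureReal_mono hsub (measure_ne_top _ _)).trans ?_
  refine (measureReal_biUnion_finset_le _ _).trans ?_
  have hS : ∀ S ∈ G, μ.real (C S) ≤ w S * Real.exp (-Z) := by
    intro S hSG
    rw [hG, mem_filter, mem_powerset] at hSG
    have h1 := cond_bound hm hE A S H (fun i => S.image (φ i)) h0 (by
      intro i hi
      rw [Finset.disjoint_left]
      intro m hmA hmT
      rw [mem_image] at hmT
      obtain ⟨q, hq, rfl⟩ := hmT
      exact hA i hi q (hSG.1 hq) hmA) (by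
      intro i hi j hj hij
      rw [Finset.disjoint_left]
      intro m hmi hmj
      rw [mem_image] at hmi hmj
      obtain ⟨q, hq, rfl⟩ := hmi
      obtain ⟨q', hq', h3⟩ := hmj
      exact hT i hi j hj hij q (hSG.1 hq) q' (hSG.1 hq') h3.symm) hSG.1
    rw [hC]
    refine h1.trans ?_
    rw [hw]
    simp only
    apply mul_le_mul_of_nonneg_left _ (by have := hw0 S; rw [hw] at this; exact this)
    apply Real.exp_le_exp.2
    rw [neg_le_neg_iff]
    refine (hZ S hSG.1 hSG.2).trans (le_of_eq ?_)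
    apply sum_congr rfl
    intro i hi
    rw [prod_image]
    intro a ha b hb hab
    exact hinj i hi a (hSG.1 ha) b (hSG.1 hb) hab
  refine (sum_le_sum hS).trans ?_
  rw [← sum_mul]
  have h7 : ∑ S ∈ G, w S ≤ 1 := by
    rw [← hw1, hG]
    exact sum_le_sum_of_subset_of_nonneg (filter_subset _ _) (fun S _ _ => hw0 S)
  calc (∑ S ∈ G, w S) * Real.exp (-Z) ≤ 1 * Real.exp (-Z) :=
        mul_le_mul_of_nonneg_right h7 (Real.exp_pos _).le
    _ = _ := one_mul _

/-- weighted Chernoff bound -/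
theorem wchern {E : ℕ → Set Ω} (hm : ∀ n, MeasurableSet (E n)) (hE : iIndepSet E μ) (A : Finset ℕ)
    (c : ℕ → ℝ) (s : ℝ) (hs1 : s ≤ 1) (hc : ∀ q ∈ A, 0 ≤ c q ∧ c q ≤ s) (a : ℝ) :
    μ.real {ω | a ≤ ∑ q ∈ A, (E q).indicator (fun _ => c q) ω} ≤
      Real.exp (-a + (1 + s) * ∑ q ∈ A, μ.real (E q) * c q) := by
  classical
  obtain ⟨X, hX⟩ : ∃ X : Ω → ℝ, X = ∑ q ∈ A, (E q).indicator (fun _ => c q) := ⟨_, rfl⟩
  have hXω : ∀ ω, X ω = ∑ q ∈ A, (E q).indicator (fun _ => c q) ω := by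
    intro ω
    rw [hX]
    exact Finset.sum_apply _ _ _
  have hXm : Measurable X := by
    have h1 : X = fun ω => ∑ q ∈ A, (E q).indicator (fun _ => c q) ω := funext hXω
    rw [h1]
    exact Finset.measurable_sum _ (fun q _ => measurable_const.indicator (hm q))
  have hXb : ∀ ω, |X ω| ≤ A.card := by
    intro ω
    rw [hXω]
    refine (abs_sum_le_sum_abs _ _).trans ?_
    have h2 : ∀ q ∈ A, |(E q).indicator (fun _ => c q) ω| ≤ 1 := by
      intro q hq
      by_cases h : ω ∈ E q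
      · rw [Set.indicator_of_mem h, abs_of_nonneg (hc q hq).1]
        exact (hc q hq).2.trans hs1
      · rw [Set.indicator_of_notMem h, abs_zero]
        exact zero_le_one
    refine (sum_le_sum h2).trans ?_
    rw [sum_const, nsmul_eq_mul, mul_one]
  have hint : Integrable (fun ω => Real.exp (1 * X ω)) μ := by
    apply Integrable.of_bound ((hXm.const_mul 1).exp.aestronglyMeasurable) (Real.exp (A.card))
    filter_upwards with ω
    rw [Real.norm_of_nonneg (Real.exp_pos _).le]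
    apply Real.exp_le_exp.2
    rw [one_mul]
    exact (le_abs_self _).trans (hXb ω)
  have hset : {ω | a ≤ ∑ q ∈ A, (E q).indicator (fun _ => c q) ω} = {ω | a ≤ X ω} := by
    ext ω
    rw [Set.mem_setOf_eq, Set.mem_setOf_eq, hXω]
  rw [hset]
  refine (measure_ge_le_exp_mul_mgf (t := 1) _ zero_le_one hint).trans ?_
  have hind : iIndepFun (fun q => (E q).indicator (fun _ => c q)) μ := by
    have h1 := (hE.iIndepFun_indicator (β := ℝ)).comp (fun q x => c q * x) (fun q => measurable_const_mul (c q))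
    have h2 : (fun q => (fun x => c q * x) ∘ (E q).indicator (fun _ => (1 : ℝ))) =
        fun q => (E q).indicator (fun _ => c q) := by
      funext q ω
      simp only [Function.comp]
      by_cases h : ω ∈ E q
      · rw [Set.indicator_of_mem h, Set.indicator_of_mem h, mul_one]
      · rw [Set.indicator_of_notMem h, Set.indicator_of_notMem h, mul_zero]
    rw [← h2]
    exact h1
  have hmgf : mgf X μ 1 ≤ Real.exp ((1 + s) * ∑ q ∈ A, μ.real (E q) * c q) := by
    rw [hX, hind.mgf_sum (fun q => measurable_const.indicator (hm q)), mul_sum, Real.exp_sum]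
    apply Finset.prod_le_prod
    · intro q _
      exact mgf_nonneg
    · intro q hq
      have h1 : mgf ((E q).indicator (fun _ => c q)) μ 1 = 1 + μ.real (E q) * (Real.exp (c q) - 1) := by
        unfold mgf
        have h2 : (fun ω => Real.exp (1 * (E q).indicator (fun _ => c q) ω)) =
            fun ω => 1 + (E q).indicator (fun _ => (Real.exp (c q) - 1)) ω := by
          funext ω
          by_cases h : ω ∈ E q
          · rw [Set.indicator_of_mem h, Set.indicator_of_mem h, one_mul]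
            ring
          · rw [Set.indicator_of_notMem h, Set.indicator_of_notMem h, mul_zero, Real.exp_zero, add_zero]
        rw [h2, integral_add (integrable_const _) ((integrable_const _).indicator (hm q)), integral_const,
          integral_indicator_const _ (hm q)]
        simp
      rw [h1]
      have h3 : Real.exp (c q) - 1 ≤ (1 + s) * c q := by
        have h4 := Real.abs_exp_sub_one_sub_id_le (x := c q)
          (by rw [abs_of_nonneg (hc q hq).1]; exact (hc q hq).2.trans hs1)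
        have h5 := (abs_le.1 h4).2
        have h6 : c q ^ 2 ≤ s * c q := by
          rw [pow_two]
          exact mul_le_mul_of_nonneg_right (hc q hq).2 (hc q hq).1
        linarith
      have h7 : μ.real (E q) * (Real.exp (c q) - 1) ≤ μ.real (E q) * ((1 + s) * c q) :=
        mul_le_mul_of_nonneg_left h3 measureReal_nonneg
      have h8 := Real.add_one_le_exp ((1 + s) * (μ.real (E q) * c q))
      linarith
  calc Real.exp (-1 * a) * mgf X μ 1 ≤ Real.exp (-1 * a) * Real.exp ((1 + s) * ∑ q ∈ A, μ.real (E q) * c q) :=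
        mul_le_mul_of_nonneg_left hmgf (Real.exp_pos _).le
    _ = _ := by
        rw [← Real.exp_add]
        congr 1
        ring

end Pool.Agent.U839.Lp
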