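import Mathlib
import Pool.Agent.U839.Lp.Rand

set_option autoImplicit false

/-! # Random pairs with one small element: almost sure statements -/

open MeasureTheory ProbabilityTheory Filter Finset Topology

namespace Pool.Agent.U839.Lp

open Pool.Agent.U839.Thin (compl_indep one_sub_ge tlog prod_compl none_complete)

variable {Ω : Type*} [MeasurableSpace Ω] {μ : Measure Ω} [IsProbabilityMeasure μ]

/-- no pair with a small element -/
theorem low_gen {E : ℕ → Set Ω} (hm : ∀ n, MeasurableSet (E n)) (hE : iIndepSet E μ) (φ : ℕ → ℕ → ℕ)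
    (P : ℕ → Prop) (A : ℕ → Finset ℕ) (lam η : ℝ) (hη : 0 < η) (hη1 : η ≤ 1) (hlam : 0 ≤ lam)
    (hl : (1 + η) * ((1 + η) * lam + η) + 3 * η ≤ 1)
    (hr : ∀ r : ℝ, 0 < r → ∀ᶠ n : ℕ in atTop, μ.real (E n) ≤ r)
    (h : ∀ᶠ x : ℕ in atTop, ∃ H : Finset ℕ, (∀ i ∈ H, x < i ∧ i ≤ 2 * x ∧ P i) ∧
      (∀ i ∈ H, ∀ q ∈ A x, φ i q ∉ A x) ∧
      (∀ i ∈ H, ∀ j ∈ H, i ≠ j → ∀ q ∈ A x, ∀ q' ∈ A x, φ i q ≠ φ j q') ∧
      (∀ i ∈ H, ∀ q ∈ A x, ∀ q' ∈ A x, φ i q = φ i q' → q = q') ∧
      (∀ i ∈ H, ∀ q ∈ A x, x ≤ 2 * φ i q) ∧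
      (∀ i ∈ H, ∑ q ∈ A x, μ.real (E q) * μ.real (E (φ i q)) ≤ lam * Real.log x) ∧
      (x : ℝ) ^ (1 - 2 * η) ≤ H.card) :
    ∀ᵐ ω ∂μ, ∀ᶠ x : ℕ in atTop, ∃ i : ℕ, x < i ∧ i ≤ 2 * x ∧ P i ∧ ∀ q ∈ A x, ω ∈ E q → ω ∉ E (φ i q) := by
  classical
  obtain ⟨x₀, hx₀⟩ := eventually_atTop.1 h
  choose! H h1 h2 h3 h4 h5 h6 h7 using hx₀
  obtain ⟨n₁, hn₁⟩ := eventually_atTop.1 (hr (η ^ 2 / 4) (by positivity))
  obtain ⟨bad, hbad⟩ : ∃ bad : ℕ → Set Ω, bad = fun x => {ω | ∀ i ∈ H x, ∃ q ∈ A x, ω ∈ E q ∧ ω ∈ E (φ i q)} :=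
    ⟨_, rfl⟩
  have hlog := (isLittleO_log_rpow_atTop hη).bound (show (0 : ℝ) < 1 / 2 by norm_num)
  have hb : ∀ᶠ x : ℕ in atTop, μ.real (bad x) ≤ 2 * (1 / (x : ℝ) ^ (2 : ℝ)) := by
    filter_upwards [eventually_ge_atTop (max x₀ (2 * n₁ + 1)), tendsto_natCast_atTop_atTop.eventually hlog,
      tlog.eventually_ge_atTop 1] with x g1 g2 g3
    have gx : x₀ ≤ x := (le_max_left _ _).trans g1
    have gn : 2 * n₁ + 1 ≤ x := (le_max_right _ _).trans g1
    have hx1 : (1 : ℝ) ≤ x := by exact_mod_cast (by omega : 1 ≤ x)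
    have hx0 : (0 : ℝ) < x := by linarith
    obtain ⟨L, hL⟩ : ∃ L, L = Real.log x := ⟨_, rfl⟩
    have hexp : Real.exp L = x := by rw [hL, Real.exp_log hx0]
    rw [Real.norm_of_nonneg (by linarith), Real.norm_of_nonneg (by positivity)] at g2
    obtain ⟨K, hK⟩ : ∃ K, K = 4 / η := ⟨_, rfl⟩
    have hK0 : 0 < K := by rw [hK]; positivity
    have hKη : K * η = 4 := by rw [hK]; field_simp
    obtain ⟨B, hB⟩ : ∃ B, B = ((1 + η) * lam + η) * L := ⟨_, rfl⟩
    have hsmall : ∀ i ∈ H x, ∀ q ∈ A x, μ.real (E (φ i q)) ≤ η ^ 2 / 4 := by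
      intro i hi q hq
      apply hn₁
      have := h5 x gx i hi q hq
      omega
    have hsub : bad x ⊆ {ω | (∀ i ∈ H x, ∑ q ∈ A x, (E q).indicator (fun _ => μ.real (E (φ i q))) ω ≤ B) ∧
        ∀ i ∈ H x, ∃ q ∈ A x, ω ∈ E q ∧ ω ∈ E (φ i q)} ∪
        ⋃ i ∈ H x, {ω | K * B ≤ ∑ q ∈ A x, (E q).indicator (fun _ => K * μ.real (E (φ i q))) ω} := by
      intro ω hω
      rw [hbad] at hω
      by_cases h8 : ∀ i ∈ H x, ∑ q ∈ A x, (E q).indicator (fun _ => μ.real (E (φ i q))) ω ≤ B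
      · left
        exact ⟨h8, hω⟩
      · right
        push Not at h8
        obtain ⟨i, hi, h9⟩ := h8
        rw [Set.mem_iUnion₂]
        refine ⟨i, hi, ?_⟩
        have h10 : ∑ q ∈ A x, (E q).indicator (fun _ => K * μ.real (E (φ i q))) ω =
            K * ∑ q ∈ A x, (E q).indicator (fun _ => μ.real (E (φ i q))) ω := by
          rw [mul_sum]
          apply sum_congr rfl
          intro q _
          by_cases h : ω ∈ E q
          · rw [Set.indicator_of_mem h, Set.indicator_of_mem h]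
          · rw [Set.indicator_of_notMem h, Set.indicator_of_notMem h, mul_zero]
        change K * B ≤ _
        rw [h10]
        exact mul_le_mul_of_nonneg_left h9.le hK0.le
    refine (measureReal_mono hsub (measure_ne_top _ _)).trans ?_
    refine (measureReal_union_le _ _).trans ?_
    have p1 : μ.real {ω | (∀ i ∈ H x, ∑ q ∈ A x, (E q).indicator (fun _ => μ.real (E (φ i q))) ω ≤ B) ∧
        ∀ i ∈ H x, ∃ q ∈ A x, ω ∈ E q ∧ ω ∈ E (φ i q)} ≤ 1 / (x : ℝ) ^ (2 : ℝ) := by
      have h0 : 0 ∉ H x := by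
        intro h0
        have := (h1 x gx 0 h0).1
        omega
      refine (bad_bound hm hE (A x) (H x) φ h0 (h2 x gx) (h3 x gx) (h4 x gx) B ((x : ℝ) ^ η) ?_).trans ?_
      · intro S hS hgood
        have h8 : ∀ i ∈ H x, (x : ℝ) ^ (-((1 + η) * ((1 + η) * lam + η))) ≤
            ∏ q ∈ S, (1 - μ.real (E (φ i q))) := by
          intro i hi
          have h9 : ∀ q ∈ S, Real.exp (-((1 + η) * μ.real (E (φ i q)))) ≤ 1 - μ.real (E (φ i q)) := by
            intro q hq
            have h10 := hsmall i hi q (hS hq)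
            have h11 : 0 ≤ μ.real (E (φ i q)) := measureReal_nonneg
            refine le_trans ?_ (one_sub_ge (μ.real (E (φ i q))) h11 (by nlinarith))
            apply Real.exp_le_exp.2
            rw [neg_le_neg_iff]
            nlinarith
          refine le_trans ?_ (Finset.prod_le_prod (fun m _ => (Real.exp_pos _).le) h9)
          rw [← Real.exp_sum, Finset.sum_neg_distrib, ← Finset.mul_sum, Real.rpow_def_of_pos hx0]
          apply Real.exp_le_exp.2
          have h12 := hgood i hi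
          have h13 : (1 + η) * ∑ q ∈ S, μ.real (E (φ i q)) ≤ (1 + η) * B := by gcongr
          rw [hB, hL] at h13
          linarith
        calc (x : ℝ) ^ η ≤ (x : ℝ) ^ (1 - 2 * η - (1 + η) * ((1 + η) * lam + η)) :=
              Real.rpow_le_rpow_of_exponent_le hx1 (by linarith)
          _ = (x : ℝ) ^ (1 - 2 * η) * (x : ℝ) ^ (-((1 + η) * ((1 + η) * lam + η))) := by
              rw [← Real.rpow_add hx0]
              congr 1
          _ ≤ (H x).card * (x : ℝ) ^ (-((1 + η) * ((1 + η) * lam + η))) := by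
              apply mul_le_mul_of_nonneg_right (h7 x gx) (by positivity)
          _ = ∑ i ∈ H x, (x : ℝ) ^ (-((1 + η) * ((1 + η) * lam + η))) := by rw [Finset.sum_const, nsmul_eq_mul]
          _ ≤ _ := Finset.sum_le_sum h8
      · rw [one_div, ← Real.rpow_neg hx0.le, Real.rpow_def_of_pos hx0 (-2)]
        apply Real.exp_le_exp.2
        linarith
    have p2 : ∀ i ∈ H x, μ.real {ω | K * B ≤ ∑ q ∈ A x, (E q).indicator (fun _ => K * μ.real (E (φ i q))) ω} ≤
        1 / (x : ℝ) ^ (4 : ℝ) := by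
      intro i hi
      refine (wchern hm hE (A x) (fun q => K * μ.real (E (φ i q))) η hη1 ?_ (K * B)).trans ?_
      · intro q hq
        refine ⟨mul_nonneg hK0.le measureReal_nonneg, ?_⟩
        calc K * μ.real (E (φ i q)) ≤ K * (η ^ 2 / 4) := mul_le_mul_of_nonneg_left (hsmall i hi q hq) hK0.le
          _ = (K * η) * η / 4 := by ring
          _ = η := by rw [hKη]; ring
      · rw [one_div, ← Real.rpow_neg hx0.le, Real.rpow_def_of_pos hx0]
        apply Real.exp_le_exp.2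
        have h8 : ∑ q ∈ A x, μ.real (E q) * (K * μ.real (E (φ i q))) =
            K * ∑ q ∈ A x, μ.real (E q) * μ.real (E (φ i q)) := by
          rw [mul_sum]
          apply sum_congr rfl
          intro q _
          ring
        simp only [h8]
        have h9 := h6 x gx i hi
        have h10 : (1 + η) * (K * ∑ q ∈ A x, μ.real (E q) * μ.real (E (φ i q))) ≤
            (1 + η) * (K * (lam * L)) := by
          rw [hL]
          gcongr
        rw [← hL]
        have h11 : K * B = (1 + η) * (K * (lam * L)) + K * η * L := by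
          rw [hB]
          ring
        rw [h11, hKη]
        linarith
    have hcard : ((H x).card : ℝ) ≤ x := by
      have h8 : H x ⊆ Ioc x (2 * x) := by
        intro i hi
        rw [mem_Ioc]
        exact ⟨(h1 x gx i hi).1, (h1 x gx i hi).2.1⟩
      have h9 := card_le_card h8
      rw [Nat.card_Ioc] at h9
      exact_mod_cast (by omega : (H x).card ≤ x)
    have p3 : μ.real (⋃ i ∈ H x, {ω | K * B ≤ ∑ q ∈ A x, (E q).indicator (fun _ => K * μ.real (E (φ i q))) ω}) ≤
        1 / (x : ℝ) ^ (2 : ℝ) := by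
      refine (measureReal_biUnion_finset_le _ _).trans ?_
      refine (sum_le_sum p2).trans ?_
      rw [sum_const, nsmul_eq_mul]
      calc ((H x).card : ℝ) * (1 / (x : ℝ) ^ (4 : ℝ)) ≤ x * (1 / (x : ℝ) ^ (4 : ℝ)) := by
            apply mul_le_mul_of_nonneg_right hcard (by positivity)
        _ = (x : ℝ) ^ (1 : ℝ) * (x : ℝ) ^ (-4 : ℝ) := by
            rw [Real.rpow_one, one_div, ← Real.rpow_neg hx0.le]
        _ = (x : ℝ) ^ (-3 : ℝ) := by
            rw [← Real.rpow_add hx0]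
            norm_num
        _ ≤ (x : ℝ) ^ (-2 : ℝ) := Real.rpow_le_rpow_of_exponent_le hx1 (by norm_num)
        _ = 1 / (x : ℝ) ^ (2 : ℝ) := by rw [one_div, ← Real.rpow_neg hx0.le]
    linarith
  filter_upwards [bc bad 2 2 (by norm_num) hb] with ω hω
  filter_upwards [hω, eventually_ge_atTop x₀] with x g1 g2
  rw [hbad] at g1
  simp only [Set.mem_ofPred_eq] at g1
  push Not at g1
  obtain ⟨i, hi, h8⟩ := g1
  obtain ⟨e1, e2, e3⟩ := h1 x g2 i hi
  exact ⟨i, e1, e2, e3, h8⟩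

/-- a pair with a small element -/
theorem up_gen {E : ℕ → Set Ω} (hm : ∀ n, MeasurableSet (E n)) (hE : iIndepSet E μ) (φ : ℕ → ℕ → ℕ)
    (P : ℕ → Prop) (A : ℕ → Finset ℕ) (lam : ℝ) (hlam : 1 < lam)
    (h : ∀ᶠ i : ℕ in atTop, P i → (∀ q ∈ A i, φ i q ∉ A i) ∧
      (∀ q ∈ A i, ∀ q' ∈ A i, φ i q = φ i q' → q = q') ∧
      lam * Real.log i ≤ ∑ q ∈ A i, μ.real (E q) * μ.real (E (φ i q))) :
    ∀ᵐ ω ∂μ, ∀ᶠ i : ℕ in atTop, P i → ∃ q ∈ A i, ω ∈ E q ∧ ω ∈ E (φ i q) := by
  classical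
  obtain ⟨bad, hbad⟩ : ∃ bad : ℕ → Set Ω, bad = fun i => {ω | P i ∧ ∀ q ∈ A i, ω ∈ E q → ω ∉ E (φ i q)} :=
    ⟨_, rfl⟩
  have hb : ∀ᶠ i : ℕ in atTop, μ.real (bad i) ≤ 1 * (1 / (i : ℝ) ^ lam) := by
    filter_upwards [h, eventually_ge_atTop 1] with i g1 g2
    have hi0 : (0 : ℝ) < i := by exact_mod_cast g2
    rw [one_mul]
    by_cases hP : P i
    · obtain ⟨h1, h2, h3⟩ := g1 hP
      have hsub : bad i ⊆ ⋂ q ∈ A i, (⋂ p ∈ ({q, φ i q} : Finset ℕ), E p)ᶜ := by
        intro ω hω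
        rw [hbad] at hω
        rw [Set.mem_iInter₂]
        intro q hq hcon
        rw [Set.mem_iInter₂] at hcon
        exact hω.2 q hq (hcon q (by simp)) (hcon (φ i q) (by simp))
      refine (measureReal_mono hsub (measure_ne_top _ _)).trans ?_
      refine (none_complete hm hE (A i) (fun q => {q, φ i q}) ?_).trans ?_
      · intro q hq q' hq' hqq
        rw [Finset.disjoint_left]
        intro m hm1 hm2
        rw [mem_insert, mem_singleton] at hm1 hm2
        rcases hm1 with e1 | e1 <;> rcases hm2 with e2 | e2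
        · exact hqq (e1.symm.trans e2)
        · apply h1 q' hq'
          rw [← e2, e1]
          exact hq
        · apply h1 q hq
          rw [← e1, e2]
          exact hq'
        · exact hqq (h2 q hq q' hq' (e1.symm.trans e2))
      · rw [one_div, ← Real.rpow_neg hi0.le, Real.rpow_def_of_pos hi0]
        apply Real.exp_le_exp.2
        have h4 : ∑ q ∈ A i, ∏ p ∈ ({q, φ i q} : Finset ℕ), μ.real (E p) =
            ∑ q ∈ A i, μ.real (E q) * μ.real (E (φ i q)) := by
          apply sum_congr rfl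
          intro q hq
          rw [prod_pair]
          intro h5
          apply h1 q hq
          rw [← h5]
          exact hq
        rw [h4]
        linarith
    · have : bad i = ∅ := by
        rw [hbad]
        ext ω
        simp [hP]
      rw [this, measureReal_empty]
      positivity
  filter_upwards [bc bad 1 lam hlam hb] with ω hω
  filter_upwards [hω] with i g1 hP
  rw [hbad] at g1
  simp only [Set.mem_ofPred_eq] at g1
  push Not at g1
  exact g1 hP

end Pool.Agent.U839.Lp
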