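import Mathlib
import Pool.Agent.U839.Lp.Grow

set_option autoImplicit false

/-! # Upper bound for the expected number of pairs with a small element, at integers without small odd prime factors -/

open MeasureTheory ProbabilityTheory Finset Filter Topology

namespace Pool.Agent.U839.Lp

open Pool.Agent.U839.Sv (fT fT_nonneg fT_le W W_mono W_pos W_le' Sieved law' sub_pow)
open Pool.Agent.U839.Gb (cc Ss Ss_nonneg exists_b)
open Pool.Agent.U839.Thin (tlog)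

variable {Ω : Type*} [MeasurableSpace Ω] {μ : Measure Ω} [IsProbabilityMeasure μ]

theorem sum_up {φ : ℕ → ℕ → ℕ} (hφ : Shift φ) (T : ℕ → ℕ) (hT : Monotone T) (hT2 : ∃ n, 2 ≤ T n)
    (hTl : ∀ ε : ℝ, 0 < ε → ∀ᶠ n : ℕ in atTop, (T n : ℝ) ≤ (Real.log n) ^ ε)
    {E : ℕ → Set Ω} (hE : Sieved μ E T) (c : ℝ) (hc0 : 0 < c) (hc : kap T * c < 1) :
    ∃ lam : ℝ, 0 ≤ lam ∧ lam < 1 ∧ ∀ᶠ x : ℕ in atTop, ∀ n : ℕ, x < n → n ≤ 2 * x → 2 ∣ n →
      (∀ p, p.Prime → 3 ≤ p → p ≤ T (yn c x) → ¬ p ∣ n) →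
      ∑ q ∈ Ioc 0 (yn c x), μ.real (E q) * μ.real (E (φ n q)) ≤ lam * Real.log x := by
  have hTs := sub_pow T 1 (hTl 1 one_pos)
  obtain ⟨κ, hκ⟩ : ∃ κ, κ = kap T := ⟨_, rfl⟩
  have hκ2 : 1 / 2 ≤ κ := by rw [hκ]; exact kap_low T
  rw [← hκ] at hc
  obtain ⟨s, hs⟩ : ∃ s, s = κ * c := ⟨_, rfl⟩
  rw [← hs] at hc
  have hs0 : 0 < s := by rw [hs]; positivity
  obtain ⟨δ, hδ⟩ : ∃ δ, δ = min (1 / 10) ((1 - s) / 16) := ⟨_, rfl⟩
  have hδ0 : 0 < δ := by
    rw [hδ]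
    apply lt_min (by norm_num)
    linarith
  have hδ1 : δ ≤ 1 / 10 := by rw [hδ]; exact min_le_left _ _
  have hδ2 : δ ≤ (1 - s) / 16 := by rw [hδ]; exact min_le_right _ _
  refine ⟨(1 + s) / 2, by linarith, by linarith, ?_⟩
  obtain ⟨b₀, hb₀⟩ := exists_b δ hδ0
  obtain ⟨K, D, hK, H⟩ := hφ.sum b₀
  obtain ⟨n₂, hn₂⟩ := hT2
  obtain ⟨n₃, hn₃⟩ := eventually_atTop.1 (law' hE hTs)
  obtain ⟨n₄, hn₄⟩ := kap_lim T hT (δ / 2) (by positivity)
  obtain ⟨a₀, ha₀⟩ : ∃ a₀, a₀ = n₂ + n₃ + n₄ + 2 := ⟨_, rfl⟩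
  have hpow : Tendsto (fun n : ℕ => (Real.log n) ^ δ) atTop atTop :=
    (tendsto_rpow_atTop hδ0).comp tlog
  filter_upwards [errK T hT hTl K hK D, y_small (2 * c) 1 (by linarith) one_pos,
    TL T hTl δ hδ0, hpow.eventually_ge_atTop (1 / (δ * (1 - δ))),
    tlog.eventually_ge_atTop (K / (δ * s) + 1 / δ + a₀ + 1), tlog2.eventually_ge_atTop (1 / c + 1),
    eventually_ge_atTop (2 * a₀ + 2)] with x g1 g2 g3 g4 g5 g6 g7 n hxn hnx hn2 hfree
  obtain ⟨L, hL⟩ : ∃ L, L = Real.log x := ⟨_, rfl⟩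
  obtain ⟨Y, hY⟩ : ∃ Y, Y = yn c x := ⟨_, rfl⟩
  have hx0 : (0 : ℝ) < x := by exact_mod_cast (by omega : 0 < x)
  have hxn' : (x : ℝ) < n := by exact_mod_cast hxn
  rw [Real.rpow_one] at g2
  have hcL0 : 0 < K / (δ * s) := div_pos hK (by positivity)
  have hcL1 : 0 < 1 / δ := by positivity
  have ha00 : (0 : ℝ) ≤ a₀ := Nat.cast_nonneg _
  rw [← hL] at g1 g2 g3 g4 g5 g6 ⊢
  rw [← hY] at hfree ⊢
  obtain ⟨l, hl⟩ : ∃ l, l = Real.log L := ⟨_, rfl⟩
  rw [← hl] at g2 g6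
  have hL1 : 1 ≤ L := by linarith
  have hc1 : 0 < 1 / c := by positivity
  have hl1 : 1 ≤ l := by linarith
  have hL0 : 0 < L := by linarith
  have hl0 : 0 < l := by linarith
  obtain ⟨z, hz⟩ : ∃ z, z = c * L ^ 2 * l := ⟨_, rfl⟩
  have hz0 : 0 < z := by rw [hz]; positivity
  have hYz : (Y : ℝ) ≤ z := by
    rw [hY, hz, hl, hL]
    exact Nat.floor_le (by rw [← hL, ← hl]; positivity)
  have h2Y : 2 * Y ≤ x := by
    have : (2 : ℝ) * Y ≤ x := by
      have : 2 * z ≤ x := by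
        rw [hz]
        linarith
      linarith
    exact_mod_cast this
  have hKL : K * L ≤ δ * κ * z := by
    have h1 : K / (δ * s) ≤ L := by linarith
    rw [div_le_iff₀ (by positivity)] at h1
    have h2 : K * L ≤ L * (δ * s) * L := by gcongr
    have h3 : L * (δ * s) * L * 1 ≤ L * (δ * s) * L * l := by gcongr
    have h4 : δ * κ * z = L * (δ * s) * L * l := by
      rw [hz, hs]
      ring
    rw [h4]
    linarith
  -- the splitting point
  obtain ⟨y, hy⟩ : ∃ y, y = ⌊L ^ (2 - 2 * δ)⌋₊ := ⟨_, rfl⟩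
  have hy1 : (y : ℝ) ≤ L ^ (2 - 2 * δ) := by
    rw [hy]
    exact Nat.floor_le (by positivity)
  have hya : a₀ ≤ y := by
    rw [hy]
    apply Nat.le_floor
    calc (a₀ : ℝ) ≤ L := by linarith
      _ = L ^ (1 : ℝ) := (Real.rpow_one L).symm
      _ ≤ L ^ (2 - 2 * δ) := Real.rpow_le_rpow_of_exponent_le hL1 (by linarith)
  have hyY : y ≤ Y := by
    rw [hy, hY]
    unfold yn
    rw [← hL, ← hl]
    apply Nat.floor_le_floor
    calc L ^ (2 - 2 * δ) ≤ L ^ (2 : ℝ) := Real.rpow_le_rpow_of_exponent_le hL1 (by linarith)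
      _ = 1 * L ^ 2 := by rw [Real.rpow_two, one_mul]
      _ ≤ (c * l) * L ^ 2 := by
          apply mul_le_mul_of_nonneg_right _ (sq_nonneg L)
          have : 1 / c ≤ l := by linarith
          rw [div_le_iff₀ hc0] at this
          linarith
      _ = c * L ^ 2 * l := by ring
  -- the logarithms
  have hlow : (1 - δ) * L ≤ Real.log (x / 2) := by
    rw [Real.log_div hx0.ne' (by norm_num), ← hL]
    have := Real.log_two_lt_d9
    have h1 : 1 / δ ≤ L := by linarith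
    rw [div_le_iff₀ hδ0] at h1
    linarith
  have hδL0 : 0 < (1 - δ) * L := by
    apply mul_pos _ hL0
    linarith
  have hφq : ∀ q ∈ Ioc 0 Y, a₀ ≤ φ n q ∧ (1 - δ) * L ≤ Real.log (φ n q) ∧ φ n q ≤ 4 * x := by
    intro q hq
    rw [mem_Ioc] at hq
    obtain ⟨e1, e2⟩ := hφ.low n q (by omega)
    refine ⟨by omega, ?_, by omega⟩
    refine hlow.trans (Real.log_le_log (by positivity) ?_)
    have : (n : ℝ) ≤ 2 * φ n q := by exact_mod_cast e1
    linarith
  have hρφ : ∀ q ∈ Ioc 0 Y, μ.real (E (φ n q)) ≤ fT T (φ n q) / ((1 - δ) * L) := by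
    intro q hq
    obtain ⟨e1, e2, -⟩ := hφq q hq
    rw [hn₃ _ (by omega)]
    exact div_le_div_of_nonneg_left (fT_nonneg T _) hδL0 e2
  -- the small part
  have hsmall : ∑ q ∈ Ioc 0 y, μ.real (E q) * μ.real (E (φ n q)) ≤ δ * L := by
    have h1 : ∀ q ∈ Ioc 0 y, μ.real (E q) * μ.real (E (φ n q)) ≤ L ^ δ / ((1 - δ) * L) := by
      intro q hq
      have hq' : q ∈ Ioc 0 Y := by
        rw [mem_Ioc] at hq ⊢
        omega
      have h2 : μ.real (E q) ≤ 1 := measureReal_le_one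
      have h3 : fT T (φ n q) ≤ L ^ δ := by
        refine (fT_le T _).trans ((W_mono (hT (hφq q hq').2.2)).trans ((W_le' _).trans ?_))
        linarith
      calc μ.real (E q) * μ.real (E (φ n q)) ≤ 1 * μ.real (E (φ n q)) :=
            mul_le_mul_of_nonneg_right h2 measureReal_nonneg
        _ = μ.real (E (φ n q)) := one_mul _
        _ ≤ fT T (φ n q) / ((1 - δ) * L) := hρφ q hq'
        _ ≤ L ^ δ / ((1 - δ) * L) := div_le_div_of_nonneg_right h3 hδL0.le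
    refine (sum_le_sum h1).trans ?_
    rw [sum_const, nsmul_eq_mul, Nat.card_Ioc, Nat.sub_zero]
    have h4 : 0 < L ^ δ := by positivity
    calc (y : ℝ) * (L ^ δ / ((1 - δ) * L)) ≤ L ^ (2 - 2 * δ) * (L ^ δ / ((1 - δ) * L)) := by
          apply mul_le_mul_of_nonneg_right hy1 (by positivity)
      _ = (L ^ (2 - 2 * δ) * L ^ δ) / ((1 - δ) * L) := by rw [mul_div_assoc]
      _ ≤ δ * L := by
          rw [div_le_iff₀ hδL0]
          have h5 : L ^ (2 - 2 * δ) * L ^ δ * L ^ δ = L ^ 2 := by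
            rw [← Real.rpow_add hL0, ← Real.rpow_add hL0, ← Real.rpow_two]
            congr 1
            ring
          have h6 : 0 < L ^ (2 - 2 * δ) * L ^ δ := by positivity
          have hd : 0 < δ * (1 - δ) := by
            apply mul_pos hδ0
            linarith
          rw [div_le_iff₀ hd] at g4
          have h7 : L ^ (2 - 2 * δ) * L ^ δ * 1 ≤ L ^ (2 - 2 * δ) * L ^ δ * (L ^ δ * (δ * (1 - δ))) :=
            mul_le_mul_of_nonneg_left g4 h6.le
          have h8 : L ^ (2 - 2 * δ) * L ^ δ * (L ^ δ * (δ * (1 - δ))) = L ^ 2 * (δ * (1 - δ)) := by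
            rw [← h5]
            ring
          rw [h8] at h7
          nlinarith
  -- the main part
  obtain ⟨A, hA⟩ : ∃ A, A = ((2 - 2 * δ) * l) * ((1 - δ) * L) := ⟨_, rfl⟩
  have h2δ : 0 < (2 - 2 * δ) * l := by
    apply mul_pos _ hl0
    linarith
  have hA0 : 0 < A := by rw [hA]; positivity
  have hmain : ∑ q ∈ Ioc y Y, μ.real (E q) * μ.real (E (φ n q)) ≤
      (∑ q ∈ Ioc y Y, fT T q * fT T (φ n q)) / A := by
    rw [sum_div]
    apply sum_le_sum
    intro q hq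
    rw [mem_Ioc] at hq
    have hq' : q ∈ Ioc 0 Y := by
      rw [mem_Ioc]
      omega
    have hqL : L ^ (2 - 2 * δ) ≤ q := by
      have h1 : L ^ (2 - 2 * δ) < (y : ℝ) + 1 := by
        rw [hy]
        exact Nat.lt_floor_add_one _
      have h2 : (y : ℝ) + 1 ≤ q := by exact_mod_cast hq.1
      linarith
    have hlq : (2 - 2 * δ) * l ≤ Real.log q := by
      have := Real.log_le_log (by positivity) hqL
      rwa [Real.log_rpow hL0, ← hl] at this
    have h1 : μ.real (E q) ≤ fT T q / ((2 - 2 * δ) * l) := by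
      rw [hn₃ q (by omega)]
      exact div_le_div_of_nonneg_left (fT_nonneg T q) h2δ hlq
    calc μ.real (E q) * μ.real (E (φ n q)) ≤
        (fT T q / ((2 - 2 * δ) * l)) * (fT T (φ n q) / ((1 - δ) * L)) := by
          apply mul_le_mul h1 (hρφ q hq') measureReal_nonneg (div_nonneg (fT_nonneg T q) h2δ.le)
      _ = fT T q * fT T (φ n q) / A := by
          rw [hA]
          field_simp
  have h8 := (abs_le.1 (H T hT n y Y hyY (by omega) (by omega))).2
  have h9 := g1 (2 * n) (by omega)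
  have h15 : 0 ≤ ∑ q ∈ Ioc y Y, Ss n (T q) := sum_nonneg (fun q _ => Ss_nonneg n (T q))
  have h16 : (1 / 2 : ℝ) ^ b₀ * ∑ q ∈ Ioc y Y, Ss n (T q) ≤ δ * ∑ q ∈ Ioc y Y, Ss n (T q) := by gcongr
  have h10 : ∑ q ∈ Ioc y Y, Ss n (T q) ≤ 2 * (κ + δ / 2) * z := by
    have h11 : ∑ q ∈ Ioc y Y, Ss n (T q) ≤ ∑ q ∈ Ioc y Y, 2 * (κ + δ / 2) := by
      apply sum_le_sum
      intro q hq
      rw [mem_Ioc] at hq
      have h12 : 2 ≤ T q := hn₂.trans (hT (by omega))
      rw [Ss_free hn2 h12 (fun p hp hp3 hpT => hfree p hp hp3 (hpT.trans (hT hq.2)))]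
      have h14 := hn₄ q (by omega)
      rw [← hκ] at h14
      linarith
    rw [sum_const, nsmul_eq_mul, Nat.card_Ioc, Nat.cast_sub hyY] at h11
    refine h11.trans ?_
    rw [mul_comm]
    apply mul_le_mul_of_nonneg_left _ (by positivity)
    have : (0 : ℝ) ≤ y := Nat.cast_nonneg _
    linarith
  have h17 : ∑ q ∈ Ioc y Y, fT T q * fT T (φ n q) ≤ 2 * κ * z * (1 + 3 * δ) := by
    have h18 : (1 + δ) * ∑ q ∈ Ioc y Y, Ss n (T q) ≤ (1 + δ) * (2 * (κ + δ / 2) * z) := by gcongr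
    have h19 : (1 + δ) * (2 * (κ + δ / 2) * z) ≤ (1 + δ) * (2 * (κ * (1 + δ)) * z) := by
      have : κ + δ / 2 ≤ κ * (1 + δ) := by nlinarith
      gcongr
    have h20 : (1 + δ) * (2 * (κ * (1 + δ)) * z) = 2 * κ * z * (1 + 2 * δ + δ ^ 2) := by ring
    have h21 : 2 * κ * z * (δ ^ 2) ≤ 2 * κ * z * (δ / 2) := by
      have : δ ^ 2 ≤ δ / 2 := by nlinarith
      gcongr
    nlinarith
  have hsplit : ∑ q ∈ Ioc 0 Y, μ.real (E q) * μ.real (E (φ n q)) =
      ∑ q ∈ Ioc 0 y, μ.real (E q) * μ.real (E (φ n q)) + ∑ q ∈ Ioc y Y, μ.real (E q) * μ.real (E (φ n q)) :=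
    (Finset.sum_Ioc_consecutive _ (Nat.zero_le y) hyY).symm
  rw [hsplit]
  have h22 : (∑ q ∈ Ioc y Y, fT T q * fT T (φ n q)) / A ≤ s * (1 + 7 * δ) * L := by
    rw [div_le_iff₀ hA0]
    refine h17.trans ?_
    have h23 : 2 * κ * z * (1 + 3 * δ) = (L ^ 2 * l) * (2 * s * (1 + 3 * δ)) := by
      rw [hz, hs]
      ring
    have h24 : s * (1 + 7 * δ) * L * A = (L ^ 2 * l) * (2 * s * ((1 + 7 * δ) * (1 - δ) ^ 2)) := by
      rw [hA]
      ring
    rw [h23, h24]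
    apply mul_le_mul_of_nonneg_left _ (by positivity)
    apply mul_le_mul_of_nonneg_left _ (by positivity)
    nlinarith [sq_nonneg δ, mul_pos hδ0 hδ0]
  have h25 : s * (1 + 7 * δ) * L ≤ (s + 7 * δ) * L := by
    apply mul_le_mul_of_nonneg_right _ hL0.le
    nlinarith
  have h26 : (s + 8 * δ) * L ≤ (1 + s) / 2 * L := by
    apply mul_le_mul_of_nonneg_right _ hL0.le
    linarith
  linarith

end Pool.Agent.U839.Lp
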