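import Mathlib
import Pool.Agent.U839.Lp.Low
import Pool.Agent.U839.Lp.Up
import Pool.Agent.U839.Lp.Rand2

set_option autoImplicit false

/-! # The least small element of a pair -/

open MeasureTheory ProbabilityTheory Finset Filter Topology

namespace Pool.Agent.U839.Lp

open Pool.Agent.U839.Sv (fT fT_nonneg dens Sieved law' sub_pow)
open Pool.Agent.U839.Gb (cc cc_low cc_anti cc_lim C2 C2_le Pt mem_Pt gg)
open Pool.Agent.U839.Thin (tlog)

variable {Ω : Type*} [MeasurableSpace Ω] {μ : Measure Ω} [IsProbabilityMeasure μ]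

theorem upper_thm {φ : ℕ → ℕ → ℕ} (hφ : Shift φ) (T : ℕ → ℕ) (hT : Monotone T) (hT2 : ∃ n, 2 ≤ T n)
    (hTl : ∀ ε : ℝ, 0 < ε → ∀ᶠ n : ℕ in atTop, (T n : ℝ) ≤ (Real.log n) ^ ε)
    {E : ℕ → Set Ω} (hE : Sieved μ E T) (c : ℝ) (hc0 : 0 < c) (hc : 1 < kap T * c) :
    ∀ᵐ ω ∂μ, ∀ᶠ n : ℕ in atTop, 2 ∣ n → ∃ q ∈ Ioc 0 (yn c n), ω ∈ E q ∧ ω ∈ E (φ n q) := by
  obtain ⟨lam, hlam, H⟩ := sum_low hφ T hT hT2 hTl hE c hc
  apply up_gen hE.meas hE.indep φ (fun n => 2 ∣ n) (fun n => Ioc 0 (yn c n)) lam hlam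
  filter_upwards [H, y_small (2 * c) 1 (by linarith) one_pos, eventually_ge_atTop 1,
    tlog2.eventually_ge_atTop 0] with n g1 g2 g3 g4 hn2
  rw [Real.rpow_one] at g2
  have h2Y : 2 * yn c n < n := by
    have h1 : (yn c n : ℝ) ≤ c * (Real.log n) ^ 2 * Real.log (Real.log n) :=
      Nat.floor_le (mul_nonneg (by positivity) g4)
    have : (2 : ℝ) * yn c n < n := by linarith
    exact_mod_cast this
  refine ⟨?_, ?_, g1 hn2⟩
  · intro q hq h1
    rw [mem_Ioc] at hq h1
    have := (hφ.low n q (by omega)).1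
    omega
  · intro q hq q' hq' h1
    rw [mem_Ioc] at hq hq'
    exact hφ.inj n q q' (by omega) (by omega) h1

theorem yn_tendsto (c : ℝ) (hc : 0 < c) : Tendsto (yn c) atTop atTop := by
  apply tendsto_nat_floor_atTop.comp
  apply tendsto_atTop_mono' _ _ tlog
  filter_upwards [tlog.eventually_ge_atTop (1 / c), tlog.eventually_ge_atTop 1,
    tlog2.eventually_ge_atTop 1] with n g1 g2 g3
  rw [div_le_iff₀ hc] at g1
  obtain ⟨L, hL⟩ : ∃ L, L = Real.log n := ⟨_, rfl⟩
  rw [← hL] at g1 g2 g3 ⊢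
  have h1 : L * 1 ≤ L * (L * c) := by gcongr
  have h2 : L * (L * c) * 1 ≤ L * (L * c) * Real.log L := by gcongr
  calc L ≤ L * (L * c) * Real.log L := by linarith
    _ = c * L ^ 2 * Real.log L := by ring

theorem fact_le (t : ℕ) : (t.factorial : ℝ) ≤ Real.exp ((t : ℝ) ^ 2) := by
  have h1 : (t.factorial : ℝ) ≤ (t : ℝ) ^ t := by exact_mod_cast Nat.factorial_le_pow t
  have h2 : (t : ℝ) ≤ Real.exp t := by
    have := Real.add_one_le_exp (t : ℝ)
    linarith
  calc (t.factorial : ℝ) ≤ (t : ℝ) ^ t := h1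
    _ ≤ (Real.exp t) ^ t := pow_le_pow_left₀ (Nat.cast_nonneg t) h2 t
    _ = Real.exp ((t : ℝ) ^ 2) := by
        rw [← Real.exp_nat_mul]
        congr 1
        ring

theorem lower_thm {φ : ℕ → ℕ → ℕ} (hφ : Shift φ) (T : ℕ → ℕ) (hT : Monotone T) (hT2 : ∃ n, 2 ≤ T n)
    (hTl : ∀ ε : ℝ, 0 < ε → ∀ᶠ n : ℕ in atTop, (T n : ℝ) ≤ (Real.log n) ^ ε)
    {E : ℕ → Set Ω} (hE : Sieved μ E T) (c : ℝ) (hc0 : 0 < c) (hc : kap T * c < 1) :
    ∀ᵐ ω ∂μ, ∀ᶠ x : ℕ in atTop, ∃ n : ℕ, x < n ∧ n ≤ 2 * x ∧ 2 ∣ n ∧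
      ∀ q ∈ Ioc 0 (yn c x), ω ∈ E q → ω ∉ E (φ n q) := by
  classical
  have hTs := sub_pow T 1 (hTl 1 one_pos)
  obtain ⟨lam, hlam0, hlam1, H⟩ := sum_up hφ T hT hT2 hTl hE c hc0 hc
  obtain ⟨η, hη⟩ : ∃ η, η = min (1 / 4) ((1 - lam) / 8) := ⟨_, rfl⟩
  have hη0 : 0 < η := by
    rw [hη]
    apply lt_min (by norm_num)
    linarith
  have hη1 : η ≤ 1 / 4 := by rw [hη]; exact min_le_left _ _
  have hη2 : η ≤ (1 - lam) / 8 := by rw [hη]; exact min_le_right _ _
  have hηl : (1 + η) * ((1 + η) * lam + η) + 3 * η ≤ 1 := by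
    have a1 : η * lam ≤ η * 1 := by gcongr
    have a2 : η ^ 2 * lam ≤ η ^ 2 * 1 := by gcongr
    have a3 : η ^ 2 ≤ η / 4 := by nlinarith
    have a4 : (1 + η) * ((1 + η) * lam + η) + 3 * η = lam + 2 * (η * lam) + η ^ 2 * lam + η ^ 2 + 4 * η := by ring
    rw [a4]
    linarith
  apply low_gen hE.meas hE.indep φ (fun n => 2 ∣ n) (fun x => Ioc 0 (yn c x)) lam η hη0 (by linarith) hlam0
    hηl
  · intro r hr
    filter_upwards [dens T hTs r hr] with n hn
    rw [hE.law n]
    exact (min_le_right _ _).trans hn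
  · have e1 : ∀ᶠ x : ℕ in atTop, (8 : ℝ) ≤ (x : ℝ) ^ (η / 2) :=
      ((tendsto_rpow_atTop (by positivity)).comp tendsto_natCast_atTop_atTop).eventually_ge_atTop _
    have e2 : ∀ᶠ x : ℕ in atTop, (1 : ℝ) ≤ (x : ℝ) ^ (1 - η) :=
      ((tendsto_rpow_atTop (by linarith)).comp tendsto_natCast_atTop_atTop).eventually_ge_atTop _
    have e3 := (yn_tendsto c hc0).eventually (hTl (1 / 2) (by norm_num))
    filter_upwards [H, y_small c (η / 4) hc0 (by positivity), y_small (2 * c) 1 (by linarith) one_pos,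
      e1, e2, e3, (yn_tendsto c hc0).eventually_ge_atTop 3, tlog2.eventually_ge_atTop 0,
      eventually_ge_atTop 4] with x g1 g2 g2' g3 g4 g5 g6 g7 g8
    obtain ⟨Y, hY⟩ : ∃ Y, Y = yn c x := ⟨_, rfl⟩
    rw [← hY] at g5 g6 g1 ⊢
    rw [Real.rpow_one] at g2'
    have hx0 : (0 : ℝ) < x := by exact_mod_cast (by omega : 0 < x)
    have hx1 : (1 : ℝ) ≤ x := by exact_mod_cast (by omega : 1 ≤ x)
    have hYz : (Y : ℝ) ≤ c * (Real.log x) ^ 2 * Real.log (Real.log x) := by
      rw [hY]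
      exact Nat.floor_le (mul_nonneg (by positivity) g7)
    have h2Y : 2 * Y < x := by
      have : (2 : ℝ) * Y < x := by linarith
      exact_mod_cast this
    obtain ⟨P, hP⟩ : ∃ P, P = (T Y).factorial := ⟨_, rfl⟩
    have hP0 : 0 < P := by rw [hP]; exact Nat.factorial_pos _
    have hY0 : (0 : ℝ) < Y := by exact_mod_cast (by omega : 0 < Y)
    have hPY : (P : ℝ) ≤ Y := by
      rw [hP]
      refine (fact_le _).trans ?_
      rw [← Real.exp_log hY0]
      apply Real.exp_le_exp.2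
      have hlY : 0 ≤ Real.log Y := Real.log_natCast_nonneg Y
      calc ((T Y : ℝ)) ^ 2 ≤ ((Real.log Y) ^ (1 / 2 : ℝ)) ^ 2 := by gcongr
        _ = Real.log Y := by
            rw [← Real.rpow_natCast, ← Real.rpow_mul hlY]
            norm_num
    obtain ⟨M, hM⟩ : ∃ M, M = 2 * P * (Y + 1) := ⟨_, rfl⟩
    have hM0 : 0 < M := by rw [hM]; positivity
    have hMY : Y + 1 ≤ M := by
      rw [hM]
      exact Nat.le_mul_of_pos_left _ (by positivity)
    have hM2 : 2 ∣ M := by
      rw [hM, mul_assoc]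
      exact dvd_mul_right _ _
    have hMx : (M : ℝ) ≤ (x : ℝ) ^ η / 4 := by
      have h1 : (Y : ℝ) + 1 ≤ (x : ℝ) ^ (η / 4) := by linarith
      have h2 : (x : ℝ) ^ η = ((x : ℝ) ^ (η / 4) * (x : ℝ) ^ (η / 4)) * (x : ℝ) ^ (η / 2) := by
        rw [← Real.rpow_add hx0, ← Real.rpow_add hx0]
        congr 1
        ring
      have h3 : 0 < (x : ℝ) ^ (η / 4) := by positivity
      rw [hM, h2]
      push_cast
      have h4 : (P : ℝ) * (Y + 1) ≤ (x : ℝ) ^ (η / 4) * (x : ℝ) ^ (η / 4) := by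
        apply mul_le_mul _ h1 (by positivity) h3.le
        linarith
      have h5 : (x : ℝ) ^ (η / 4) * (x : ℝ) ^ (η / 4) * 8 ≤
          (x : ℝ) ^ (η / 4) * (x : ℝ) ^ (η / 4) * (x : ℝ) ^ (η / 2) := by gcongr
      linarith
    obtain ⟨a, ha⟩ : ∃ a, a = (2 * x - 2) / M := ⟨_, rfl⟩
    obtain ⟨b, hb⟩ : ∃ b, b = x / M := ⟨_, rfl⟩
    have ha1 : 2 * x - 2 < M * (a + 1) := by
      rw [ha]
      exact Nat.lt_mul_div_succ _ hM0
    have ha2 : M * a ≤ 2 * x - 2 := by
      rw [ha]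
      exact Nat.mul_div_le _ _
    have hb1 : x < M * (b + 1) := by
      rw [hb]
      exact Nat.lt_mul_div_succ _ hM0
    have hb2 : M * b ≤ x := by
      rw [hb]
      exact Nat.mul_div_le _ _
    have hinj : Function.Injective (fun k => 2 + M * k) := by
      intro k k' hkk
      simp only at hkk
      have : M * k = M * k' := by omega
      exact Nat.eq_of_mul_eq_mul_left hM0 this
    refine ⟨(Ioc b a).image (fun k => 2 + M * k), ?_, ?_, ?_, ?_, ?_, ?_, ?_⟩
    · intro i hi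
      rw [mem_image] at hi
      obtain ⟨k, hk, rfl⟩ := hi
      rw [mem_Ioc] at hk
      have k1 : M * (b + 1) ≤ M * k := Nat.mul_le_mul_left _ hk.1
      have k2 : M * k ≤ M * a := Nat.mul_le_mul_left _ hk.2
      refine ⟨by omega, by omega, ?_⟩
      exact (Nat.dvd_add_right (dvd_refl 2)).2 (Dvd.dvd.mul_right hM2 k)
    · intro i hi q hq h1
      rw [mem_image] at hi
      obtain ⟨k, hk, rfl⟩ := hi
      rw [mem_Ioc] at hk hq h1
      have k1 : M * (b + 1) ≤ M * k := Nat.mul_le_mul_left _ hk.1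
      have := (hφ.low (2 + M * k) q (by omega)).1
      omega
    · intro i hi j hj hij q hq q' hq'
      rw [mem_image] at hi hj
      obtain ⟨k, hk, rfl⟩ := hi
      obtain ⟨k', hk', rfl⟩ := hj
      rw [mem_Ioc] at hk hk' hq hq'
      have k1 : M * (b + 1) ≤ M * k := Nat.mul_le_mul_left _ hk.1
      have k2 : M * (b + 1) ≤ M * k' := Nat.mul_le_mul_left _ hk'.1
      rcases Nat.lt_trichotomy k k' with h1 | h1 | h1
      · have h2 : M * (k + 1) ≤ M * k' := Nat.mul_le_mul_left _ h1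
        rw [mul_add, mul_one] at h2
        exact hφ.sep _ _ q q' Y (by omega) (by omega) hq.2 hq'.2 (by omega)
      · exact absurd (by rw [h1]) hij
      · have h2 : M * (k' + 1) ≤ M * k := Nat.mul_le_mul_left _ h1
        rw [mul_add, mul_one] at h2
        exact (hφ.sep _ _ q' q Y (by omega) (by omega) hq'.2 hq.2 (by omega)).symm
    · intro i hi q hq q' hq' h1
      rw [mem_image] at hi
      obtain ⟨k, hk, rfl⟩ := hi
      rw [mem_Ioc] at hk hq hq'
      have k1 : M * (b + 1) ≤ M * k := Nat.mul_le_mul_left _ hk.1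
      exact hφ.inj _ q q' (by omega) (by omega) h1
    · intro i hi q hq
      rw [mem_image] at hi
      obtain ⟨k, hk, rfl⟩ := hi
      rw [mem_Ioc] at hk hq
      have k1 : M * (b + 1) ≤ M * k := Nat.mul_le_mul_left _ hk.1
      have := (hφ.low (2 + M * k) q (by omega)).1
      omega
    · intro i hi
      rw [mem_image] at hi
      obtain ⟨k, hk, rfl⟩ := hi
      rw [mem_Ioc] at hk
      have k1 : M * (b + 1) ≤ M * k := Nat.mul_le_mul_left _ hk.1
      have k2 : M * k ≤ M * a := Nat.mul_le_mul_left _ hk.2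
      apply g1 _ (by omega) (by omega)
      · exact (Nat.dvd_add_right (dvd_refl 2)).2 (Dvd.dvd.mul_right hM2 k)
      · intro p hp hp3 hpT hdvd
        have h1 : p ∣ M := by
          rw [hM, mul_assoc]
          apply Dvd.dvd.mul_left
          apply Dvd.dvd.mul_right
          rw [hP]
          exact Nat.dvd_factorial hp.pos hpT
        have h2 : p ∣ 2 := (Nat.dvd_add_left (Dvd.dvd.mul_right h1 k)).1 hdvd
        have := Nat.le_of_dvd (by norm_num) h2
        omega
    · rw [card_image_of_injective _ hinj, Nat.card_Ioc]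
      obtain ⟨C, hC⟩ : ∃ C, C = a - b := ⟨_, rfl⟩
      rw [← hC]
      have h1 : x ≤ M * (C + 1) + 2 := by
        have h2 : M * a ≤ M * (C + b) := Nat.mul_le_mul_left _ (by omega)
        rw [mul_add] at h2
        rw [mul_add, mul_one] at ha1 ⊢
        omega
      have h1' : (x : ℝ) ≤ M * ((C : ℝ) + 1) + 2 := by exact_mod_cast h1
      have h2 : (x : ℝ) / 2 ≤ M * ((C : ℝ) + 1) := by
        have : (4 : ℝ) ≤ x := by exact_mod_cast g8
        linarith
      have hC0 : (0 : ℝ) ≤ (C : ℝ) + 1 := by positivity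
      have h3 : (M : ℝ) * ((C : ℝ) + 1) ≤ (x : ℝ) ^ η / 4 * ((C : ℝ) + 1) := by gcongr
      have h4 : (x : ℝ) = (x : ℝ) ^ η * (x : ℝ) ^ (1 - η) := by
        rw [← Real.rpow_add hx0]
        have : η + (1 - η) = 1 := by ring
        rw [this, Real.rpow_one]
      have hxη : 0 < (x : ℝ) ^ η := by positivity
      have h5 : (x : ℝ) ^ η * (2 * (x : ℝ) ^ (1 - η)) ≤ (x : ℝ) ^ η * ((C : ℝ) + 1) := by
        have : (x : ℝ) ^ η * (2 * (x : ℝ) ^ (1 - η)) = 2 * x := by
          conv_rhs => rw [h4]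
          ring
        rw [this]
        linarith
      have h6 := le_of_mul_le_mul_left h5 hxη
      calc (x : ℝ) ^ (1 - 2 * η) ≤ (x : ℝ) ^ (1 - η) := Real.rpow_le_rpow_of_exponent_le hx1 (by linarith)
        _ ≤ C := by linarith

/-- which models have the predicted constant -/
theorem kap_iff (T : ℕ → ℕ) (hT : Monotone T) : kap T = C2 ↔ Tendsto T atTop atTop := by
  constructor
  · intro h
    by_contra hcon
    have hB : ∃ b, ∀ a, T a < b := by
      by_contra h1
      push Not at h1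
      exact hcon (tendsto_atTop_atTop_of_monotone hT h1)
    obtain ⟨b, hb⟩ := hB
    obtain ⟨p, hp1, hp⟩ := Nat.exists_infinite_primes (b + 4)
    have h1 : cc b ≤ kap T := le_ciInf (fun n => cc_anti (hb n).le)
    have h2 : cc p = gg p * cc (p - 1) := by
      unfold cc
      have h3 : Pt p = insert p (Pt (p - 1)) := by
        ext q
        rw [mem_insert, mem_Pt, mem_Pt]
        constructor
        · rintro ⟨e1, e2, e3⟩
          rcases Nat.lt_or_ge q p with h4 | h4
          · right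
            exact ⟨e1, e2, by omega⟩
          · left
            omega
        · rintro (e1 | ⟨e1, e2, e3⟩)
          · rw [e1]
            exact ⟨hp, by omega, le_rfl⟩
          · exact ⟨e1, e2, by omega⟩
      rw [h3, prod_insert]
      rw [mem_Pt]
      omega
    have h3 : cc (p - 1) ≤ cc b := cc_anti (by omega)
    have h4 := cc_low (p - 1)
    have h5 : gg p < 1 := by
      unfold gg
      have hp3 : (3 : ℝ) ≤ p := by exact_mod_cast (by omega : 3 ≤ p)
      have : 0 < 1 / ((p : ℝ) - 1) ^ 2 := by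
        apply div_pos one_pos
        nlinarith
      linarith
    have h6 := C2_le p
    nlinarith
  · intro h
    have h1 : Tendsto (fun n => cc (T n)) atTop (𝓝 (kap T)) :=
      tendsto_atTop_ciInf (fun a b hab => cc_anti (hT hab)) (kap_bdd T)
    exact tendsto_nhds_unique h1 (cc_lim.comp h)

end Pool.Agent.U839.Lp
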