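import Mathlib
import Pool.Agent.U839.Lp.Fin

set_option autoImplicit false

/-! # The least small element of a pair: the constant -/

open MeasureTheory ProbabilityTheory Finset Filter Topology

namespace Pool.Agent.U839.Lp

open Pool.Agent.U839.Sv (Sieved)
open Pool.Agent.U839.Thin (tlog)

variable {Ω : Type*} [MeasurableSpace Ω] {μ : Measure Ω} [IsProbabilityMeasure μ]

/-- the scale -/
noncomputable def sc (n : ℕ) : ℝ := (Real.log n) ^ 2 * Real.log (Real.log n)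

theorem zero_notMem {E : ℕ → Set Ω} {T : ℕ → ℕ} (hE : Sieved μ E T) : ∀ᵐ ω ∂μ, ω ∉ E 0 := by
  have h1 : μ.real (E 0) = 0 := by
    rw [hE.law 0]
    simp
  have h2 : μ (E 0) = 0 := (measureReal_eq_zero_iff (measure_ne_top _ _)).1 h1
  exact measure_eq_zero_iff_ae_notMem.1 h2

/-- comparison of the scales at `x` and at `n ≤ 2 x` -/
theorem sc_comp (e : ℝ) (he : 0 < e) (he1 : e ≤ 1 / 2) : ∀ᶠ x : ℕ in atTop, ∀ n : ℕ, x < n → n ≤ 2 * x →
    (1 - e) * sc n ≤ (1 - e / 2) * sc x := by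
  filter_upwards [tlog.eventually_ge_atTop (16 / e), tlog2.eventually_ge_atTop (8 / e),
    eventually_ge_atTop 1] with x g1 g2 g3 n hn1 hn2
  obtain ⟨L, hL⟩ : ∃ L, L = Real.log x := ⟨_, rfl⟩
  obtain ⟨L', hL'⟩ : ∃ L', L' = Real.log n := ⟨_, rfl⟩
  rw [← hL] at g1 g2
  obtain ⟨l, hl⟩ : ∃ l, l = Real.log L := ⟨_, rfl⟩
  rw [← hl] at g2
  have hx0 : (0 : ℝ) < x := by exact_mod_cast g3
  rw [div_le_iff₀ he] at g1 g2
  have hL1 : 32 ≤ L := by nlinarith
  have hl1 : 16 ≤ l := by nlinarith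
  have hLL : L' ≤ L + 1 := by
    have h1 : (n : ℝ) ≤ 2 * x := by exact_mod_cast hn2
    have hn0 : (0 : ℝ) < n := by exact_mod_cast (by omega : 0 < n)
    have h2 := Real.log_le_log hn0 h1
    rw [Real.log_mul (by norm_num) hx0.ne', ← hL, ← hL'] at h2
    have := Real.log_two_lt_d9
    linarith
  have hLL0 : L ≤ L' := by
    rw [hL, hL']
    exact Real.log_le_log hx0 (by exact_mod_cast hn1.le)
  have hll : Real.log L' ≤ l + 1 := by
    have h1 : Real.log L' ≤ Real.log (2 * L) := Real.log_le_log (by linarith) (by linarith)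
    rw [Real.log_mul (by norm_num) (by linarith), ← hl] at h1
    have := Real.log_two_lt_d9
    linarith
  have hll0 : 0 ≤ Real.log L' := Real.log_nonneg (by linarith)
  have h1 : sc n ≤ (L + 1) ^ 2 * (l + 1) := by
    unfold sc
    rw [← hL']
    apply mul_le_mul _ hll hll0 (by positivity)
    apply pow_le_pow_left₀ (by linarith) hLL
  have h2 : (L + 1) ^ 2 ≤ (1 + e / 8 + e / 16) * L ^ 2 := by
    have h3 : 2 * L ≤ e / 8 * L ^ 2 := by nlinarith
    have h4 : 1 ≤ e / 16 * L ^ 2 := by nlinarith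
    nlinarith
  have h5 : l + 1 ≤ (1 + e / 8) * l := by linarith
  have h6 : (L + 1) ^ 2 * (l + 1) ≤ ((1 + e / 8 + e / 16) * L ^ 2) * ((1 + e / 8) * l) := by
    apply mul_le_mul h2 h5 (by linarith) (by positivity)
  have h7 : sc x = L ^ 2 * l := by
    unfold sc
    rw [← hL, ← hl]
  rw [h7]
  have h8 : (1 - e) * sc n ≤ (1 - e) * (((1 + e / 8 + e / 16) * L ^ 2) * ((1 + e / 8) * l)) :=
    mul_le_mul_of_nonneg_left (h1.trans h6) (by linarith)
  refine h8.trans ?_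
  have h9 : (1 - e) * (((1 + e / 8 + e / 16) * L ^ 2) * ((1 + e / 8) * l)) =
      ((1 - e) * ((1 + e / 8 + e / 16) * (1 + e / 8))) * (L ^ 2 * l) := by ring
  rw [h9]
  apply mul_le_mul_of_nonneg_right _ (by positivity)
  have h10 : (1 + e / 8 + e / 16) * (1 + e / 8) ≤ 1 + e / 2 := by nlinarith
  have h11 : (1 - e) * ((1 + e / 8 + e / 16) * (1 + e / 8)) ≤ (1 - e) * (1 + e / 2) := by
    apply mul_le_mul_of_nonneg_left h10
    linarith
  nlinarith

theorem main {φ : ℕ → ℕ → ℕ} (hφ : Shift φ) (T : ℕ → ℕ) (hT : Monotone T) (hT2 : ∃ n, 2 ≤ T n)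
    (hTl : ∀ ε : ℝ, 0 < ε → ∀ᶠ n : ℕ in atTop, (T n : ℝ) ≤ (Real.log n) ^ ε)
    {E : ℕ → Set Ω} (hE : Sieved μ E T) :
    ∀ᵐ ω ∂μ,
      (∀ ε : ℝ, 0 < ε → ∀ᶠ n : ℕ in atTop, 2 ∣ n → ∃ q : ℕ, 0 < q ∧ 2 * q ≤ n ∧ ω ∈ E q ∧ ω ∈ E (φ n q) ∧
        (q : ℝ) ≤ (1 + ε) / kap T * sc n) ∧
      (∀ ε : ℝ, 0 < ε → ∀ᶠ x : ℕ in atTop, ∃ n : ℕ, x < n ∧ n ≤ 2 * x ∧ 2 ∣ n ∧
        ∀ q : ℕ, ω ∈ E q → ω ∈ E (φ n q) → (1 - ε) / kap T * sc n < q) := by
  obtain ⟨κ, hκ⟩ : ∃ κ, κ = kap T := ⟨_, rfl⟩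
  have hκ2 : 1 / 2 ≤ κ := by rw [hκ]; exact kap_low T
  have hκ0 : 0 < κ := by linarith
  have h1 : ∀ᵐ ω ∂μ, ∀ k : ℕ, ∀ᶠ n : ℕ in atTop, 2 ∣ n →
      ∃ q ∈ Ioc 0 (yn ((1 + 1 / ((k : ℝ) + 1)) / κ) n), ω ∈ E q ∧ ω ∈ E (φ n q) := by
    rw [ae_all_iff]
    intro k
    apply upper_thm hφ T hT hT2 hTl hE _ (by positivity)
    rw [← hκ, mul_div_cancel₀ _ hκ0.ne']
    have : 0 < 1 / ((k : ℝ) + 1) := by positivity
    linarith
  have h2 : ∀ᵐ ω ∂μ, ∀ k : ℕ, ∀ᶠ x : ℕ in atTop, ∃ n : ℕ, x < n ∧ n ≤ 2 * x ∧ 2 ∣ n ∧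
      ∀ q ∈ Ioc 0 (yn ((1 - 1 / ((k : ℝ) + 2)) / κ) x), ω ∈ E q → ω ∉ E (φ n q) := by
    rw [ae_all_iff]
    intro k
    have h3 : 1 / ((k : ℝ) + 2) ≤ 1 / 2 := by
      apply div_le_div_of_nonneg_left (by norm_num) (by norm_num)
      have : (0 : ℝ) ≤ k := Nat.cast_nonneg _
      linarith
    have h4 : 0 < 1 / ((k : ℝ) + 2) := by positivity
    apply lower_thm hφ T hT hT2 hTl hE _ (div_pos (by linarith) hκ0)
    rw [← hκ, mul_div_cancel₀ _ hκ0.ne']
    linarith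
  filter_upwards [h1, h2, zero_notMem hE] with ω g1 g2 g3
  rw [← hκ]
  constructor
  · intro ε hε
    obtain ⟨k, hk⟩ := exists_nat_one_div_lt hε
    filter_upwards [g1 k, y_small (2 * ((1 + 1 / ((k : ℝ) + 1)) / κ)) 1 (by positivity) one_pos,
      tlog2.eventually_ge_atTop 0] with n e1 e2 e3 hn
    obtain ⟨q, hq, e4, e5⟩ := e1 hn
    rw [mem_Ioc] at hq
    rw [Real.rpow_one] at e2
    have hc0 : 0 < (1 + 1 / ((k : ℝ) + 1)) / κ := by positivity
    have hq1 : (q : ℝ) ≤ (1 + 1 / ((k : ℝ) + 1)) / κ * sc n := by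
      have h3 : (q : ℝ) ≤ yn ((1 + 1 / ((k : ℝ) + 1)) / κ) n := by exact_mod_cast hq.2
      refine h3.trans ?_
      have h4 : (yn ((1 + 1 / ((k : ℝ) + 1)) / κ) n : ℝ) ≤
          (1 + 1 / ((k : ℝ) + 1)) / κ * (Real.log n) ^ 2 * Real.log (Real.log n) :=
        Nat.floor_le (mul_nonneg (by positivity) e3)
      unfold sc
      rwa [← mul_assoc]
    have hsc0 : 0 ≤ sc n := mul_nonneg (sq_nonneg _) e3
    refine ⟨q, hq.1, ?_, e4, e5, ?_⟩
    · have h3 : (2 : ℝ) * q ≤ n := by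
        unfold sc at hq1
        linarith
      exact_mod_cast h3
    · refine hq1.trans ?_
      apply mul_le_mul_of_nonneg_right _ hsc0
      apply div_le_div_of_nonneg_right _ hκ0.le
      linarith
  · intro ε hε
    obtain ⟨e, he, he1, he2⟩ : ∃ e : ℝ, 0 < e ∧ e ≤ 1 / 2 ∧ e ≤ ε :=
      ⟨min (1 / 2) ε, lt_min (by norm_num) hε, min_le_left _ _, min_le_right _ _⟩
    obtain ⟨k, hk⟩ := exists_nat_one_div_lt (show 0 < e / 2 by positivity)
    filter_upwards [g2 k, sc_comp e he he1, tlog2.eventually_ge_atTop 0, tlog.eventually_ge_atTop 1]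
      with x e1 e2 e3 e4
    obtain ⟨n, e5, e6, e7, e8⟩ := e1
    refine ⟨n, e5, e6, e7, fun q hq hq' => ?_⟩
    have hq0 : 0 < q := by
      rcases Nat.eq_zero_or_pos q with h3 | h3
      · rw [h3] at hq
        exact absurd hq g3
      · exact h3
    have h3 : yn ((1 - 1 / ((k : ℝ) + 2)) / κ) x < q := by
      by_contra hcon
      push Not at hcon
      exact e8 q (mem_Ioc.2 ⟨hq0, hcon⟩) hq hq'
    have h4 : (1 - 1 / ((k : ℝ) + 2)) / κ * sc x < q := by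
      have h5 := (Nat.floor_lt' hq0.ne').1 h3
      unfold sc
      rwa [← mul_assoc]
    have hscx : 0 ≤ sc x := mul_nonneg (sq_nonneg _) e3
    have hsn : 0 ≤ sc n := by
      unfold sc
      apply mul_nonneg (sq_nonneg _)
      have hx0 : (0 : ℝ) < x := by
        rcases Nat.eq_zero_or_pos x with h | h
        · rw [h, Nat.cast_zero, Real.log_zero] at e4
          linarith
        · exact_mod_cast h
      have : Real.log x ≤ Real.log n := Real.log_le_log hx0 (by exact_mod_cast e5.le)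
      exact Real.log_nonneg (by linarith)
    refine lt_of_le_of_lt ?_ h4
    have h6 : (1 - ε) / κ * sc n ≤ (1 - e) / κ * sc n := by
      apply mul_le_mul_of_nonneg_right _ hsn
      apply div_le_div_of_nonneg_right _ hκ0.le
      linarith
    have h7 : (1 - e) / κ * sc n ≤ (1 - e / 2) / κ * sc x := by
      have h8 := e2 n e5 e6
      calc (1 - e) / κ * sc n = ((1 - e) * sc n) / κ := by ring
        _ ≤ ((1 - e / 2) * sc x) / κ := div_le_div_of_nonneg_right h8 hκ0.le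
        _ = _ := by ring
    have h9 : (1 - e / 2) / κ * sc x ≤ (1 - 1 / ((k : ℝ) + 2)) / κ * sc x := by
      apply mul_le_mul_of_nonneg_right _ hscx
      apply div_le_div_of_nonneg_right _ hκ0.le
      have h10 : (1 : ℝ) / ((k : ℝ) + 2) ≤ 1 / ((k : ℝ) + 1) :=
        div_le_div_of_nonneg_left (by norm_num) (by positivity) (by linarith)
      linarith
    exact h6.trans (h7.trans h9)

end Pool.Agent.U839.Lp
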